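import Mathlib
import Pool.Agent.Helper170.Weyl

set_option autoImplicit false

open Finset
open Pool.Agent.Helper170.Weyl (e e_add norm_e conj_e e_int e_nat_mul geom_bound vdc)

namespace Pool.Agent.Y937.MF

/-- the quadratic Weyl sum -/
noncomputable def S (x : ℝ) (N : ℕ) : ℂ := ∑ n ∈ range N, e (x * (n : ℝ) ^ 2)

lemma e_add_int (y : ℝ) (k : ℤ) : e (y + k) = e y := by
  rw [e_add, e_int, mul_one]

lemma geom_dist (y δ : ℝ) (hδ : 0 < δ) (h : δ ≤ |y - round y|) (M : ℕ) :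
    ‖∑ n ∈ range M, e y ^ n‖ ≤ 1 / (2 * δ) := by
  have h1 : e y = e (Int.fract y) := by
    conv_lhs => rw [← Int.fract_add_floor y]
    rw [e_add_int]
  rw [abs_sub_round_eq_min] at h
  rw [h1]
  exact geom_bound hδ (h.trans (min_le_left _ _)) (h.trans (min_le_right _ _)) M

/-- residue class of `c + j a` modulo `q` -/
def res (c a : ℤ) (q j : ℕ) : ℕ := ((c + j * a) % (q : ℤ)).toNat

lemma res_cast (c a : ℤ) (q j : ℕ) (hq : 1 ≤ q) : ((res c a q j : ℕ) : ℤ) = (c + j * a) % (q : ℤ) := by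
  unfold res
  rw [Int.toNat_of_nonneg]
  exact Int.emod_nonneg _ (by omega)

lemma res_lt (c a : ℤ) (q j : ℕ) (hq : 1 ≤ q) : res c a q j < q := by
  have h := res_cast c a q j hq
  have h2 := Int.emod_lt_of_pos (c + j * a) (by omega : (0 : ℤ) < q)
  omega

lemma res_inj (c a : ℤ) (q : ℕ) (hq : 1 ≤ q) (ha : IsCoprime a (q : ℤ)) :
    Set.InjOn (res c a q) (range q : Finset ℕ) := by
  intro i hi j hj hij
  simp only [coe_range, Set.mem_Iio] at hi hj
  have h1 := res_cast c a q i hq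
  have h2 := res_cast c a q j hq
  rw [hij, h2] at h1
  have h3 : (q : ℤ) ∣ (c + i * a) - (c + j * a) := by
    rw [← Int.emod_emod_of_dvd _ (dvd_refl _)] at h1
    exact Int.dvd_of_emod_eq_zero (by rw [Int.sub_emod, ← h2, h1.symm.trans h1]; simp_all)
  have h4 : (q : ℤ) ∣ ((i : ℤ) - j) * a := by
    have : ((i : ℤ) - j) * a = (c + i * a) - (c + j * a) := by ring
    rw [this]; exact h3
  have h5 : (q : ℤ) ∣ (i : ℤ) - j := IsCoprime.dvd_of_dvd_mul_right ha.symm h4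
  have h6 := Int.eq_zero_of_abs_lt_dvd h5 (by rw [abs_lt]; constructor <;> omega)
  omega

lemma sum_res (c a : ℤ) (q : ℕ) (hq : 1 ≤ q) (ha : IsCoprime a (q : ℤ)) (F : ℕ → ℝ) :
    ∑ j ∈ range q, F (res c a q j) = ∑ s ∈ range q, F s := by
  rw [← sum_image (g := res c a q) (f := F) (res_inj c a q hq ha)]
  congr 1
  apply Finset.eq_of_subset_of_card_le
  · intro s hs
    obtain ⟨j, _, rfl⟩ := mem_image.1 hs
    exact mem_range.2 (res_lt c a q j hq)
  · rw [card_image_of_injOn (res_inj c a q hq ha)]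


lemma harm_le (q : ℕ) : ∑ t ∈ range q, (1 : ℝ) / ((t : ℝ) + 1) ≤ 1 + Real.log q := by
  have h := harmonic_le_one_add_log q
  have h2 : ((harmonic q : ℚ) : ℝ) = ∑ t ∈ range q, (1 : ℝ) / ((t : ℝ) + 1) := by
    unfold harmonic
    push_cast
    simp only [one_div]
  rw [← h2]; exact h

lemma sum_q_div (q : ℕ) (hq : 1 ≤ q) : ∑ s ∈ range q, (q : ℝ) / s ≤ q * (1 + Real.log q) := by
  obtain ⟨m, rfl⟩ : ∃ m, q = m + 1 := ⟨q - 1, by omega⟩
  rw [sum_range_succ']
  simp only [Nat.cast_zero, div_zero, add_zero]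
  have h := harm_le (m + 1)
  rw [sum_range_succ] at h
  have h1 : ∑ t ∈ range m, (((m + 1 : ℕ) : ℝ)) / ((t + 1 : ℕ) : ℝ) =
      ((m + 1 : ℕ) : ℝ) * ∑ t ∈ range m, (1 : ℝ) / ((t : ℝ) + 1) := by
    rw [mul_sum]
    refine sum_congr rfl fun t _ => ?_
    push_cast; ring
  rw [h1]
  apply mul_le_mul_of_nonneg_left _ (by positivity)
  have : 0 ≤ 1 / ((m : ℝ) + 1) := by positivity
  linarith

lemma sum_q_div' (q : ℕ) (hq : 1 ≤ q) :
    ∑ s ∈ range q, (q : ℝ) / ((q : ℝ) - s) ≤ q * (1 + Real.log q) := by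
  rw [← sum_range_reflect]
  have h1 : ∑ s ∈ range q, (q : ℝ) / ((q : ℝ) - ((q - 1 - s : ℕ) : ℝ)) =
      (q : ℝ) * ∑ t ∈ range q, (1 : ℝ) / ((t : ℝ) + 1) := by
    rw [mul_sum]
    refine sum_congr rfl fun t ht => ?_
    have ht' := mem_range.1 ht
    have : ((q - 1 - t : ℕ) : ℝ) = (q : ℝ) - 1 - t := by
      rw [Nat.cast_sub (by omega), Nat.cast_sub (by omega)]; simp
    rw [this]
    have h2 : (q : ℝ) - (q - 1 - t) = t + 1 := by ring
    rw [h2]; ring
  rw [h1]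
  exact mul_le_mul_of_nonneg_left (harm_le q) (by positivity)

/-- the majorant on residues -/
noncomputable def maj (N : ℝ) (q s : ℕ) : ℝ :=
  (if s ≤ 2 ∨ q ≤ s + 2 then N else 0) + ((q : ℝ) / s + (q : ℝ) / ((q : ℝ) - s))

lemma sum_maj (N : ℝ) (hN : 0 ≤ N) (q : ℕ) (hq : 1 ≤ q) :
    ∑ s ∈ range q, maj N q s ≤ 5 * N + 2 * (q * (1 + Real.log q)) := by
  unfold maj
  rw [sum_add_distrib, sum_add_distrib]
  have h1 := sum_q_div q hq
  have h2 := sum_q_div' q hq
  have h3 : ∑ s ∈ range q, (if s ≤ 2 ∨ q ≤ s + 2 then N else 0) ≤ 5 * N := by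
    rw [← sum_filter, sum_const, nsmul_eq_mul]
    apply mul_le_mul_of_nonneg_right _ hN
    have h4 : (filter (fun s => s ≤ 2 ∨ q ≤ s + 2) (range q)) ⊆ range 3 ∪ Ico (q - 2) q := by
      intro s hs
      rw [mem_filter, mem_range] at hs
      rw [mem_union, mem_range, mem_Ico]
      omega
    have h5 := (card_le_card h4).trans (card_union_le _ _)
    rw [card_range, Nat.card_Ico] at h5
    have h6 : (filter (fun s => s ≤ 2 ∨ q ≤ s + 2) (range q)).card ≤ 5 := by omega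
    exact_mod_cast h6
  linarith

lemma dist_lower (y z δ : ℝ) (k : ℤ) (h : |y - (z + k)| ≤ δ) (m : ℝ) (h1 : m ≤ z) (h2 : m ≤ 1 - z) :
    m - δ ≤ |y - round y| := by
  have h3 : ∀ n : ℤ, m ≤ |z + k - n| := by
    intro n
    rcases le_or_gt n k with hn | hn
    · have : (n : ℝ) ≤ k := by exact_mod_cast hn
      refine le_trans ?_ (le_abs_self _)
      linarith
    · have : (k : ℝ) + 1 ≤ n := by exact_mod_cast hn
      rw [← abs_neg]
      refine le_trans ?_ (le_abs_self _)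
      linarith
  have h4 := h3 (round y)
  have h5 : |z + k - round y| ≤ |y - (z + k)| + |y - round y| := by
    have : z + k - round y = -(y - (z + k)) + (y - round y) := by ring
    rw [this]
    refine (abs_add_le _ _).trans ?_
    rw [abs_neg]
  linarith

/-- pointwise bound inside a block of length `q` -/
lemma point_bound (α : ℝ) (a : ℤ) (q : ℕ) (hq : 1 ≤ q)
    (h : |α - a / q| ≤ 1 / (q : ℝ) ^ 2) (h0 j : ℕ) (hj : j < q) (M : ℕ) (N : ℝ) (hM : (M : ℝ) ≤ N) :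
    ‖∑ n ∈ range M, e (((h0 + j : ℕ) : ℝ) * α) ^ n‖ ≤
      maj N q (res (round ((q : ℝ) * h0 * α)) a q j) := by
  have hq0 : (0 : ℝ) < q := by exact_mod_cast hq
  have hN : 0 ≤ N := le_trans (by positivity) hM
  set c : ℤ := round ((q : ℝ) * h0 * α) with hc
  set s : ℕ := res c a q j with hs
  have hsq : s < q := res_lt c a q j hq
  have hsq' : (s : ℝ) < q := by exact_mod_cast hsq
  have hmaj0 : 0 ≤ (q : ℝ) / s + (q : ℝ) / ((q : ℝ) - s) := by
    have : 0 < (q : ℝ) - s := by linarith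
    positivity
  by_cases hcase : s ≤ 2 ∨ q ≤ s + 2
  · unfold maj
    rw [if_pos hcase]
    have h1 : ‖∑ n ∈ range M, e (((h0 + j : ℕ) : ℝ) * α) ^ n‖ ≤ M := by
      refine (norm_sum_le _ _).trans ?_
      simp [norm_e]
    linarith
  · unfold maj
    rw [if_neg hcase, zero_add]
    push Not at hcase
    obtain ⟨hs3, hs4⟩ := hcase
    have hs3' : (3 : ℝ) ≤ s := by exact_mod_cast hs3
    have hs4' : (s : ℝ) + 3 ≤ q := by exact_mod_cast hs4
    set k : ℤ := (c + j * a) / (q : ℤ) with hk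
    have h1 : ((c : ℝ) + j * a) / q = (s : ℝ) / q + k := by
      have h2 := Int.emod_add_mul_ediv (c + j * a) q
      rw [← res_cast c a q j hq] at h2
      have h3 : ((s : ℝ)) + q * k = c + j * a := by exact_mod_cast h2
      rw [← h3]; field_simp
    have h2 : |((h0 + j : ℕ) : ℝ) * α - ((s : ℝ) / q + k)| ≤ 3 / (2 * q) := by
      rw [← h1]
      have h3 : ((h0 + j : ℕ) : ℝ) * α - ((c : ℝ) + j * a) / q =
          ((q : ℝ) * h0 * α - c) / q + j * (α - a / q) := by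
        push_cast
        field_simp
        ring
      rw [h3]
      refine (abs_add_le _ _).trans ?_
      rw [abs_div, abs_mul, Nat.abs_cast, Nat.abs_cast]
      have h4 : |(q : ℝ) * h0 * α - c| ≤ 1 / 2 := by
        rw [hc]; exact abs_sub_round _
      have h5 : (j : ℝ) ≤ q := by exact_mod_cast hj.le
      calc |(q : ℝ) * h0 * α - c| / q + j * |α - a / q|
          ≤ (1 / 2) / q + q * (1 / (q : ℝ) ^ 2) := by gcongr
        _ = 3 / (2 * q) := by field_simp; ring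
    have key : ∀ m : ℝ, 3 ≤ m → m ≤ s → m ≤ q - s →
        ‖∑ n ∈ range M, e (((h0 + j : ℕ) : ℝ) * α) ^ n‖ ≤ q / m := by
      intro m hm3 hm1 hm2
      have h3 := dist_lower _ _ _ k h2 (m / q) (by gcongr) (by
        rw [div_le_iff₀ hq0, sub_mul, div_mul_cancel₀ _ hq0.ne']; linarith)
      have h4 : m / (2 * q) ≤ m / q - 3 / (2 * q) := by
        have : m / q - 3 / (2 * q) - m / (2 * q) = (m - 3) / (2 * q) := by field_simp; ring
        have h5 : 0 ≤ (m - 3) / (2 * q) := div_nonneg (by linarith) (by positivity)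
        linarith
      have h6 := geom_dist (((h0 + j : ℕ) : ℝ) * α) (m / (2 * q)) (by positivity) (h4.trans h3) M
      refine h6.trans (le_of_eq ?_)
      field_simp
    rcases le_total (s : ℝ) (q - s) with hle | hle
    · have := key s hs3' le_rfl hle
      have h7 : 0 ≤ (q : ℝ) / ((q : ℝ) - s) := div_nonneg hq0.le (by linarith)
      linarith
    · have := key (q - s) (by linarith) hle le_rfl
      have h7 : 0 ≤ (q : ℝ) / (s : ℝ) := by positivity
      linarith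

/-- sum over a block of length `q` -/
lemma block_bound (α : ℝ) (a : ℤ) (q : ℕ) (hq : 1 ≤ q) (ha : IsCoprime a (q : ℤ))
    (h : |α - a / q| ≤ 1 / (q : ℝ) ^ 2) (h0 : ℕ) (M : ℕ → ℕ) (N : ℝ) (hM : ∀ l, (M l : ℝ) ≤ N) :
    ∑ j ∈ range q, ‖∑ n ∈ range (M (h0 + j)), e (((h0 + j : ℕ) : ℝ) * α) ^ n‖ ≤
      5 * N + 2 * (q * (1 + Real.log q)) := by
  have hN : 0 ≤ N := le_trans (by positivity) (hM 0)
  refine le_trans ?_ (sum_maj N hN q hq)
  rw [← sum_res (round ((q : ℝ) * h0 * α)) a q hq ha (maj N q)]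
  exact sum_le_sum fun j hj => point_bound α a q hq h h0 j (mem_range.1 hj) _ N (hM _)

lemma sum_blocks (f : ℕ → ℝ) (q : ℕ) (B : ℝ)
    (hB : ∀ h0, ∑ j ∈ range q, f (h0 + j) ≤ B) (K : ℕ) : ∑ n ∈ range (K * q), f n ≤ K * B := by
  induction K with
  | zero => simp
  | succ K ih =>
    rw [Nat.succ_mul, sum_range_add]
    have := hB (K * q)
    push_cast
    linarith

/-- the sum over all frequencies below `H` -/
lemma total_bound (α : ℝ) (a : ℤ) (q : ℕ) (hq : 1 ≤ q) (ha : IsCoprime a (q : ℤ))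
    (h : |α - a / q| ≤ 1 / (q : ℝ) ^ 2) (M : ℕ → ℕ) (N : ℝ) (hM : ∀ l, (M l : ℝ) ≤ N) (H : ℕ) :
    ∑ l ∈ range H, ‖∑ n ∈ range (M l), e ((l : ℝ) * α) ^ n‖ ≤
      ((H : ℝ) / q + 1) * (5 * N + 2 * (q * (1 + Real.log q))) := by
  have hq0 : (0 : ℝ) < q := by exact_mod_cast hq
  have hN : 0 ≤ N := le_trans (by positivity) (hM 0)
  have hlog : 0 ≤ Real.log q := Real.log_nonneg (by exact_mod_cast hq)
  have h1 : H ≤ (H / q + 1) * q := by
    have := Nat.div_add_mod H q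
    have h2 := Nat.mod_lt H (by omega : 0 < q)
    nlinarith
  have h2 : ∑ l ∈ range H, ‖∑ n ∈ range (M l), e ((l : ℝ) * α) ^ n‖ ≤
      ∑ l ∈ range ((H / q + 1) * q), ‖∑ n ∈ range (M l), e ((l : ℝ) * α) ^ n‖ :=
    sum_le_sum_of_subset_of_nonneg (range_subset_range.2 h1) (fun _ _ _ => norm_nonneg _)
  refine h2.trans ((sum_blocks _ q _
    (fun h0 => block_bound α a q hq ha h h0 M N hM) _).trans ?_)
  apply mul_le_mul_of_nonneg_right _ (by positivity)
  push_cast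
  have : ((H / q : ℕ) : ℝ) ≤ (H : ℝ) / q := Nat.cast_div_le
  linarith

/-- Weyl's inequality for pure quadratic sums. -/
theorem weyl_quad (α : ℝ) (a : ℤ) (q : ℕ) (hq : 1 ≤ q) (ha : IsCoprime a (q : ℤ))
    (h : |α - a / q| ≤ 1 / (q : ℝ) ^ 2) (N : ℕ) :
    ‖S α N‖ ^ 2 ≤ N + 2 * ((2 * N / q + 1) * (5 * N + 2 * (q * (1 + Real.log q)))) := by
  have hv := vdc (fun n => e (α * (n : ℝ) ^ 2)) (fun n => norm_e _) N
  refine hv.trans ?_
  have h1 : ∀ l ∈ Ico 1 N, ‖∑ n ∈ range (N - l), e (α * ((n + l : ℕ) : ℝ) ^ 2) *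
      (starRingEnd ℂ) (e (α * (n : ℝ) ^ 2))‖ =
      ‖∑ n ∈ range (N - l), e (((2 * l : ℕ) : ℝ) * α) ^ n‖ := by
    intro l _
    have h2 : ∀ n : ℕ, e (α * ((n + l : ℕ) : ℝ) ^ 2) * (starRingEnd ℂ) (e (α * (n : ℝ) ^ 2)) =
        e (α * (l : ℝ) ^ 2) * e (((2 * l : ℕ) : ℝ) * α) ^ n := by
      intro n
      rw [conj_e, ← e_add, ← e_nat_mul, ← e_add]
      congr 1
      push_cast; ring
    simp_rw [h2]
    rw [← mul_sum, norm_mul, norm_e, one_mul]
  rw [sum_congr rfl h1]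
  have h3 := total_bound α a q hq ha h (fun l => N - l / 2) N (fun l => by
    exact_mod_cast Nat.sub_le _ _) (2 * N)
  have h4 : ∑ l ∈ Ico 1 N, ‖∑ n ∈ range (N - l), e (((2 * l : ℕ) : ℝ) * α) ^ n‖ ≤
      ∑ l ∈ range (2 * N), ‖∑ n ∈ range (N - l / 2), e ((l : ℝ) * α) ^ n‖ := by
    have h5 : ∑ l ∈ Ico 1 N, ‖∑ n ∈ range (N - l), e (((2 * l : ℕ) : ℝ) * α) ^ n‖ =
        ∑ l ∈ (Ico 1 N).image (fun l => 2 * l), ‖∑ n ∈ range (N - l / 2), e ((l : ℝ) * α) ^ n‖ := by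
      rw [sum_image (by intro x _ y _ hxy; simpa using hxy)]
      refine sum_congr rfl fun l _ => ?_
      rw [Nat.mul_div_cancel_left l (by norm_num)]
    rw [h5]
    apply sum_le_sum_of_subset_of_nonneg
    · intro l hl
      obtain ⟨m, hm, rfl⟩ := mem_image.1 hl
      rw [mem_Ico] at hm
      rw [mem_range]; omega
    · intro _ _ _; exact norm_nonneg _
  push_cast at h3
  linarith

end Pool.Agent.Y937.MF
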