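import Mathlib
import Pool.Agent.Y937.MF.Weyl

set_option autoImplicit false

open Finset
open Pool.Agent.Helper170.Weyl (e e_add norm_e conj_e e_int e_nat_mul geom_bound vdc)

namespace Pool.Agent.Y937.MF

/-- `x` has approximation exponent `τ` along the ternary fractions with denominators `3 ^ E k`. -/
structure Good (τ x : ℝ) (E t : ℕ → ℕ) : Prop where
  E0 : E 0 = 1
  ht : ∀ k, t k = ⌈τ * E k⌉₊
  hE : ∀ k, E (k + 1) = t k + E k
  happ : ∀ k, ∃ p : ℤ, ¬ (3 : ℤ) ∣ p ∧ (3 : ℝ)⁻¹ ^ (t k + 1) ≤ x - p / 3 ^ (E k) ∧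
    x - p / 3 ^ (E k) ≤ (3 : ℝ)⁻¹ ^ (t k)

namespace Good

variable {τ x : ℝ} {E t : ℕ → ℕ}

lemma E_pos (h : Good τ x E t) (k : ℕ) : 1 ≤ E k := by
  induction k with
  | zero => rw [h.E0]
  | succ k ih => rw [h.hE]; omega

lemma t_ge (h : Good τ x E t) (k : ℕ) : τ * E k ≤ t k := by
  rw [h.ht]; exact Nat.le_ceil _

lemma t_le (h : Good τ x E t) (hτ : 0 ≤ τ) (k : ℕ) : (t k : ℝ) ≤ τ * E k + 1 := by
  rw [h.ht]; exact (Nat.ceil_lt_add_one (by positivity)).le

lemma E_gt (h : Good τ x E t) (hτ : 3 < τ) (k : ℕ) : k < E k := by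
  induction k with
  | zero => rw [h.E0]; norm_num
  | succ k ih =>
    have h1 := h.t_ge k
    have h2 := h.E_pos k
    have h3 : (1 : ℝ) ≤ E k := by exact_mod_cast h2
    have h4 : (1 : ℝ) ≤ t k := by nlinarith
    have h5 : 1 ≤ t k := by exact_mod_cast h4
    rw [h.hE]; omega

lemma E_le_t (h : Good τ x E t) (hτ : 3 < τ) (k : ℕ) : 3 * E k ≤ t k := by
  have h1 := h.t_ge k
  have h2 : (0 : ℝ) ≤ E k := by positivity
  have h3 : (3 : ℝ) * E k ≤ t k := by nlinarith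
  exact_mod_cast h3

/-- irrationality measure -/
lemma measure (h : Good τ x E t) (hτ : 3 < τ) :
    ∃ c : ℝ, 0 < c ∧ ∀ (q : ℕ) (a : ℤ), 1 ≤ q → c * (q : ℝ) ^ (-τ) ≤ |x - a / q| := by
  refine ⟨min ((2 : ℝ) ^ (-τ)) (1 / 9), by positivity, ?_⟩
  intro q a hq
  set c := min ((2 : ℝ) ^ (-τ)) (1 / 9) with hc
  have hc0 : 0 < c := by positivity
  have hc1 : c ≤ (2 : ℝ) ^ (-τ) := min_le_left _ _
  have hc2 : c ≤ 1 / 9 := min_le_right _ _
  have hq0 : (0 : ℝ) < q := by exact_mod_cast hq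
  have hq1 : (1 : ℝ) ≤ q := by exact_mod_cast hq
  -- existence of k
  have hex : ∃ k, 2 * q * 3 ^ (E k) ≤ 3 ^ (t k) := by
    refine ⟨q, ?_⟩
    have h1 := h.E_le_t hτ q
    have h2 := h.E_gt hτ q
    calc 2 * q * 3 ^ (E q) ≤ 3 ^ (E q) * 3 ^ (E q) * 3 ^ (E q) := by
          have h3 : 2 ≤ 3 ^ (E q) := by
            calc 2 ≤ 3 ^ 1 := by norm_num
              _ ≤ 3 ^ (E q) := Nat.pow_le_pow_right (by norm_num) (h.E_pos q)
          have h4 : q ≤ 3 ^ (E q) := h2.le.trans (Nat.lt_pow_self (by norm_num)).le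
          gcongr
      _ = 3 ^ (3 * E q) := by rw [← pow_add, ← pow_add]; congr 1; ring
      _ ≤ 3 ^ (t q) := Nat.pow_le_pow_right (by norm_num) h1
  classical
  set k := Nat.find hex with hk
  have hk1 : 2 * q * 3 ^ (E k) ≤ 3 ^ (t k) := Nat.find_spec hex
  have hk1' : 2 * (q : ℝ) * 3 ^ (E k) ≤ 3 ^ (t k) := by exact_mod_cast hk1
  obtain ⟨p, hp3, hp1, hp2⟩ := h.happ k
  have hQ0 : (0 : ℝ) < 3 ^ (E k) := by positivity
  by_cases heq : a * 3 ^ (E k) = p * q
  · -- equal fractions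
    have h1 : (a : ℝ) / q = p / 3 ^ (E k) := by
      rw [div_eq_div_iff hq0.ne' hQ0.ne']
      exact_mod_cast heq
    have hcop : IsCoprime ((3 : ℤ) ^ (E k)) p := by
      apply IsCoprime.pow_left
      exact (Prime.coprime_iff_not_dvd Int.prime_three).2 hp3
    have hdvd : ((3 : ℤ) ^ (E k)) ∣ (q : ℤ) := by
      apply hcop.dvd_of_dvd_mul_left
      exact ⟨a, by rw [← heq]; ring⟩
    have hle : (3 : ℝ) ^ (E k) ≤ q := by
      have := Int.le_of_dvd (by exact_mod_cast hq) hdvd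
      exact_mod_cast this
    rw [h1]
    refine le_trans ?_ (hp1.trans (le_abs_self _))
    have h2 : (q : ℝ) ^ (-τ) ≤ ((3 : ℝ) ^ (E k)) ^ (-τ) := by
      apply Real.rpow_le_rpow_of_nonpos hQ0 hle (by linarith)
    have h3 : ((3 : ℝ) ^ (E k)) ^ (-τ) = (3 : ℝ) ^ (-(τ * E k)) := by
      rw [← Real.rpow_natCast, ← Real.rpow_mul (by norm_num)]
      congr 1; ring
    have h4 : ((3 : ℝ)⁻¹ ^ (t k + 1)) = (3 : ℝ) ^ (-((t k : ℝ) + 1)) := by
      rw [Real.rpow_neg (by norm_num), inv_pow]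
      congr 1
      rw [← Real.rpow_natCast]; push_cast; rfl
    rw [h4]
    have h5 := h.t_le (by linarith) k
    calc c * (q : ℝ) ^ (-τ) ≤ (1 / 9) * (3 : ℝ) ^ (-(τ * E k)) := by
          rw [← h3]; gcongr
      _ = (3 : ℝ) ^ (-(τ * E k) - 2) := by
          rw [Real.rpow_sub (by norm_num)]; norm_num; ring
      _ ≤ (3 : ℝ) ^ (-((t k : ℝ) + 1)) := by
          apply Real.rpow_le_rpow_of_exponent_le (by norm_num); linarith
  · -- distinct fractions
    have h1 : 1 / ((q : ℝ) * 3 ^ (E k)) ≤ |(a : ℝ) / q - p / 3 ^ (E k)| := by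
      have h2 : (a : ℝ) / q - p / 3 ^ (E k) = ((a * 3 ^ (E k) - p * q : ℤ) : ℝ) / ((q : ℝ) * 3 ^ (E k)) := by
        push_cast
        field_simp
      rw [h2, abs_div, abs_of_pos (show (0 : ℝ) < (q : ℝ) * 3 ^ (E k) by positivity)]
      gcongr
      rw [← Int.cast_abs]
      have : 1 ≤ |a * 3 ^ (E k) - p * q| := Int.one_le_abs (sub_ne_zero.2 heq)
      exact_mod_cast this
    have h2 : (3 : ℝ)⁻¹ ^ (t k) ≤ 1 / (2 * (q : ℝ) * 3 ^ (E k)) := by
      rw [inv_pow, ← one_div]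
      exact one_div_le_one_div_of_le (by positivity) hk1'
    have h3 : |x - p / 3 ^ (E k)| ≤ 1 / (2 * (q : ℝ) * 3 ^ (E k)) := by
      rw [abs_of_nonneg (le_trans (by positivity) hp1)]
      exact hp2.trans h2
    have h4 : 1 / (2 * (q : ℝ) * 3 ^ (E k)) ≤ |x - a / q| := by
      have h5 : |(a : ℝ) / q - p / 3 ^ (E k)| ≤ |x - a / q| + |x - p / 3 ^ (E k)| := by
        have : (a : ℝ) / q - p / 3 ^ (E k) = -(x - a / q) + (x - p / 3 ^ (E k)) := by ring
        rw [this]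
        refine (abs_add_le _ _).trans ?_
        rw [abs_neg]
      have h6 : 1 / ((q : ℝ) * 3 ^ (E k)) = 1 / (2 * (q : ℝ) * 3 ^ (E k)) + 1 / (2 * (q : ℝ) * 3 ^ (E k)) := by
        field_simp; norm_num
      linarith
    refine le_trans ?_ h4
    -- need c q^{-τ} ≤ 1/(2 q Q)
    have h7 : 2 * c * 3 ^ (E k) ≤ (q : ℝ) ^ (τ - 1) := by
      rcases Nat.eq_zero_or_pos k with hk0 | hk0
      · rw [hk0, h.E0]
        have : (1 : ℝ) ≤ (q : ℝ) ^ (τ - 1) := Real.one_le_rpow hq1 (by linarith)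
        linarith
      · obtain ⟨j, hj⟩ : ∃ j, k = j + 1 := ⟨k - 1, by omega⟩
        have hmin : ¬ (2 * q * 3 ^ (E j) ≤ 3 ^ (t j)) := Nat.find_min hex (by omega)
        push Not at hmin
        have hmin' : (3 : ℝ) ^ (t j) ≤ 2 * (q : ℝ) * 3 ^ (E j) := by exact_mod_cast hmin.le
        have h8 : (3 : ℝ) ^ ((t j : ℝ) - E j) / 2 ≤ q := by
          rw [Real.rpow_sub (by norm_num), Real.rpow_natCast, Real.rpow_natCast, div_div,
            div_le_iff₀ (by positivity)]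
          linarith
        have h9 : (2 : ℝ) ^ (-τ) * 2 * 3 ^ (E k) ≤ (q : ℝ) ^ (τ - 1) := by
          calc (2 : ℝ) ^ (-τ) * 2 * 3 ^ (E k) = (3 : ℝ) ^ ((t j : ℝ) + E j) / 2 ^ (τ - 1) := by
                rw [hj, h.hE, Real.rpow_sub (by norm_num), Real.rpow_neg (by norm_num),
                  ← Real.rpow_natCast]
                push_cast
                rw [Real.rpow_one]
                field_simp
            _ ≤ (3 : ℝ) ^ (((t j : ℝ) - E j) * (τ - 1)) / 2 ^ (τ - 1) := by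
                gcongr
                · norm_num
                · have h10 := h.t_ge j
                  have h11 : (0 : ℝ) ≤ E j := by positivity
                  nlinarith [mul_nonneg h11 (by linarith : (0 : ℝ) ≤ τ),
                    mul_nonneg (mul_nonneg h11 (by linarith : (0 : ℝ) ≤ τ)) (by linarith : (0 : ℝ) ≤ τ - 3)]
            _ = ((3 : ℝ) ^ ((t j : ℝ) - E j) / 2) ^ (τ - 1) := by
                rw [Real.div_rpow (by positivity) (by norm_num), ← Real.rpow_mul (by norm_num)]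
            _ ≤ (q : ℝ) ^ (τ - 1) := by
                apply Real.rpow_le_rpow (by positivity) h8 (by linarith)
        refine le_trans ?_ h9
        have : c * 2 * 3 ^ (E k) ≤ (2 : ℝ) ^ (-τ) * 2 * 3 ^ (E k) := by gcongr
        linarith
    have h12 : (q : ℝ) ^ (-τ) = 1 / ((q : ℝ) ^ (τ - 1) * q) := by
      rw [Real.rpow_neg hq0.le, Real.rpow_sub hq0, Real.rpow_one]
      field_simp
    rw [h12, mul_one_div, div_le_div_iff₀ (by positivity) (by positivity)]
    nlinarith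

end Good

/-- upper bound from the irrationality measure -/
lemma upper (τ x c : ℝ) (hτ : 2 < τ) (hc : 0 < c)
    (hx : ∀ (q : ℕ) (a : ℤ), 1 ≤ q → c * (q : ℝ) ^ (-τ) ≤ |x - a / q|) :
    ∃ C : ℝ, 0 < C ∧ ∀ N : ℕ, 1 ≤ N → ‖S x N‖ ^ 2 ≤ C * ((N : ℝ) ^ (2 - 2 / τ) * (1 + Real.log N)) := by
  set D : ℝ := c⁻¹ ^ (1 / (τ - 1)) with hD
  have hD0 : 0 < D := by positivity
  refine ⟨20 * D + 43, by positivity, ?_⟩
  intro N hN
  have hN1 : (1 : ℝ) ≤ N := by exact_mod_cast hN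
  have hN0 : (0 : ℝ) < N := by linarith
  set R : ℝ := (N : ℝ) ^ (2 - 2 / τ) with hR
  have hτ0 : 0 < τ := by linarith
  have hexp : 1 ≤ 2 - 2 / τ := by
    have : 2 / τ ≤ 1 := by rw [div_le_one hτ0]; linarith
    linarith
  have hR1 : (N : ℝ) ≤ R := by
    calc (N : ℝ) = (N : ℝ) ^ (1 : ℝ) := (Real.rpow_one _).symm
      _ ≤ R := Real.rpow_le_rpow_of_exponent_le hN1 hexp
  have hR2 : R ≤ (N : ℝ) ^ 2 := by
    rw [← Real.rpow_natCast]
    apply Real.rpow_le_rpow_of_exponent_le hN1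
    push_cast
    have : 0 < 2 / τ := by positivity
    linarith
  have hn0 : 0 < ⌈R⌉₊ := Nat.ceil_pos.2 (by linarith)
  obtain ⟨r, hr1, hr2⟩ := Real.exists_rat_abs_sub_le_and_den_le x hn0
  set q : ℕ := r.den with hq
  have hq1 : 1 ≤ q := r.den_pos
  have hq0 : (0 : ℝ) < q := by exact_mod_cast hq1
  have hrq : ((r : ℚ) : ℝ) = (r.num : ℝ) / q := by
    rw [hq]; exact_mod_cast (Rat.num_div_den r).symm
  rw [hrq] at hr1
  have hcop : IsCoprime r.num (q : ℤ) := by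
    rw [Int.isCoprime_iff_gcd_eq_one]
    exact r.reduced
  have hqn : (q : ℝ) ≤ ⌈R⌉₊ := by exact_mod_cast hr2
  have hqR : (q : ℝ) ≤ 2 * R := by
    have := Nat.ceil_lt_add_one (show 0 ≤ R by linarith)
    linarith
  have happ : |x - r.num / q| ≤ 1 / (q : ℝ) ^ 2 := by
    refine hr1.trans ?_
    apply one_div_le_one_div_of_le (by positivity)
    nlinarith
  have happ2 : |x - r.num / q| ≤ 1 / (R * q) := by
    refine hr1.trans ?_
    apply one_div_le_one_div_of_le (by positivity)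
    have := Nat.le_ceil R
    nlinarith
  have hlow := (hx q r.num hq1).trans happ2
  have h1 : c * R ≤ (q : ℝ) ^ (τ - 1) := by
    rw [Real.rpow_neg hq0.le, Real.rpow_sub hq0, Real.rpow_one] at *
    rw [le_div_iff₀ hq0]
    have h2 : c * ((q : ℝ) ^ τ)⁻¹ = c / (q : ℝ) ^ τ := by rw [div_eq_mul_inv]
    rw [h2, div_le_div_iff₀ (by positivity) (by positivity)] at hlow
    linarith
  have hτ1 : 0 < τ - 1 := by linarith
  have h2 : (N : ℝ) ^ (2 / τ) ≤ D * q := by
    have h3 : R ≤ c⁻¹ * (q : ℝ) ^ (τ - 1) := by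
      rw [inv_mul_eq_div, le_div_iff₀ hc]; linarith
    have h4 : R ^ (1 / (τ - 1)) ≤ (c⁻¹ * (q : ℝ) ^ (τ - 1)) ^ (1 / (τ - 1)) :=
      Real.rpow_le_rpow (by positivity) h3 (by positivity)
    rw [Real.mul_rpow (by positivity) (by positivity), ← Real.rpow_mul hq0.le,
      mul_one_div_cancel hτ1.ne', Real.rpow_one, hR, ← Real.rpow_mul hN0.le] at h4
    have h5 : (2 - 2 / τ) * (1 / (τ - 1)) = 2 / τ := by field_simp
    rw [h5] at h4
    exact h4
  have h3 : (N : ℝ) ^ 2 / q ≤ D * R := by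
    rw [div_le_iff₀ hq0]
    have h4 : (N : ℝ) ^ 2 = R * (N : ℝ) ^ (2 / τ) := by
      rw [hR, ← Real.rpow_add hN0, ← Real.rpow_natCast]
      congr 1; push_cast; ring
    rw [h4]
    calc R * (N : ℝ) ^ (2 / τ) ≤ R * (D * q) := by gcongr
      _ = D * R * q := by ring
  have hL0 : 0 ≤ Real.log N := Real.log_nonneg hN1
  have hlogq : Real.log q ≤ 1 + 2 * Real.log N := by
    have h4 : (q : ℝ) ≤ 2 * (N : ℝ) ^ 2 := by linarith
    have h5 := Real.log_le_log hq0 h4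
    rw [Real.log_mul (by norm_num) (by positivity), Real.log_pow] at h5
    have h6 : Real.log 2 ≤ 1 := by
      have := Real.log_two_lt_d9; linarith
    push_cast at h5
    linarith
  have hw := weyl_quad x r.num q hq1 hcop happ N
  set L : ℝ := 1 + Real.log N with hL
  have hL1 : 1 ≤ L := by linarith
  have h4 : 1 + Real.log q ≤ 2 * L := by linarith
  have hlq0 : 0 ≤ Real.log q := Real.log_nonneg (by exact_mod_cast hq1)
  refine hw.trans ?_
  have e1 : (N : ℝ) + 2 * ((2 * N / q + 1) * (5 * N + 2 * (q * (1 + Real.log q)))) =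
      11 * N + 20 * ((N : ℝ) ^ 2 / q) + (8 * N + 4 * q) * (1 + Real.log q) := by
    field_simp
    ring
  rw [e1]
  have hRL : R ≤ R * L := le_mul_of_one_le_right (by positivity) hL1
  calc 11 * (N : ℝ) + 20 * ((N : ℝ) ^ 2 / q) + (8 * N + 4 * q) * (1 + Real.log q)
      ≤ 11 * R + 20 * (D * R) + (8 * R + 4 * (2 * R)) * (2 * L) := by gcongr
    _ = 11 * R + 20 * D * R + 32 * (R * L) := by ring
    _ ≤ 11 * (R * L) + 20 * D * (R * L) + 32 * (R * L) := by gcongr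
    _ = (20 * D + 43) * (R * L) := by ring

end Pool.Agent.Y937.MF
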