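import Mathlib
import Pool.Agent.Y937.MF.Upper

set_option autoImplicit false

open Finset

namespace Pool.Agent.Y937.MF

/-- the point with ternary digits `1 + b m ∈ {1,2}` at the places `P m` and zero elsewhere -/
noncomputable def phi (P : ℕ → ℕ) (b : ℕ → Fin 2) : ℝ := ∑' m, (1 + (b m : ℝ)) * (3 : ℝ)⁻¹ ^ (P m)

lemma fin2_le (a : Fin 2) : ((a : ℕ) : ℝ) ≤ 1 := by
  have := a.2
  exact_mod_cast (by omega : (a : ℕ) ≤ 1)

lemma shift_ge (P : ℕ → ℕ) (hP : StrictMono P) (n m : ℕ) : P n + m ≤ P (m + n) := by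
  induction m with
  | zero => simp
  | succ m ih =>
    have : P (m + n) < P (m + 1 + n) := hP (by omega)
    omega

lemma term_le (P : ℕ → ℕ) (hP : StrictMono P) (n m : ℕ) :
    (3 : ℝ)⁻¹ ^ (P (m + n)) ≤ (3 : ℝ)⁻¹ ^ (P n) * (3 : ℝ)⁻¹ ^ m := by
  rw [← pow_add]
  exact pow_le_pow_of_le_one (by norm_num) (by norm_num) (shift_ge P hP n m)

lemma summ (P : ℕ → ℕ) (hP : StrictMono P) (b : ℕ → ℝ) (hb : ∀ m, |b m| ≤ 2) :
    Summable fun m => b m * (3 : ℝ)⁻¹ ^ (P m) := by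
  have hg : Summable fun m : ℕ => 2 * (3 : ℝ)⁻¹ ^ m :=
    (summable_geometric_of_lt_one (by norm_num) (by norm_num)).mul_left 2
  refine Summable.of_norm_bounded hg fun m => ?_
  rw [norm_mul, Real.norm_eq_abs, norm_pow, norm_inv]
  have h1 := term_le P hP 0 m
  simp only [add_zero] at h1
  have h2 : (3 : ℝ)⁻¹ ^ (P 0) ≤ 1 := pow_le_one₀ (by norm_num) (by norm_num)
  have h3 : (3 : ℝ)⁻¹ ^ (P m) ≤ (3 : ℝ)⁻¹ ^ m := by
    refine h1.trans ?_
    exact mul_le_of_le_one_left (by positivity) h2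
  have h4 : ‖(3 : ℝ)‖ = 3 := by norm_num
  rw [h4]
  have := hb m
  gcongr

lemma geo_tail : ∑' m : ℕ, (3 : ℝ)⁻¹ ^ m = 3 / 2 := by
  rw [tsum_geometric_of_lt_one (by norm_num) (by norm_num)]; norm_num

lemma tail_bounds (P : ℕ → ℕ) (hP : StrictMono P) (b : ℕ → Fin 2) (n : ℕ) :
    (3 : ℝ)⁻¹ ^ (P n) ≤ ∑' m, (1 + (b (m + n) : ℝ)) * (3 : ℝ)⁻¹ ^ (P (m + n)) ∧
      ∑' m, (1 + (b (m + n) : ℝ)) * (3 : ℝ)⁻¹ ^ (P (m + n)) ≤ 3 * (3 : ℝ)⁻¹ ^ (P n) := by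
  have hP' : StrictMono fun m => P (m + n) := fun a c hac => hP (by omega)
  have hs : Summable fun m => (1 + (b (m + n) : ℝ)) * (3 : ℝ)⁻¹ ^ (P (m + n)) :=
    summ (fun m => P (m + n)) hP' (fun m => 1 + (b (m + n) : ℝ)) (fun m => by
      have := fin2_le (b (m + n))
      rw [abs_of_nonneg (by positivity)]; linarith)
  constructor
  · have h1 := hs.le_tsum 0 (fun m _ => by positivity)
    refine le_trans ?_ h1
    simp only [zero_add]
    have : (0 : ℝ) ≤ (b n : ℝ) := by positivity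
    have h3 : (0 : ℝ) < (3 : ℝ)⁻¹ ^ (P n) := by positivity
    nlinarith
  · have hg : Summable fun m : ℕ => 2 * ((3 : ℝ)⁻¹ ^ (P n) * (3 : ℝ)⁻¹ ^ m) :=
      ((summable_geometric_of_lt_one (by norm_num) (by norm_num)).mul_left _).mul_left 2
    have h1 : ∑' m, (1 + (b (m + n) : ℝ)) * (3 : ℝ)⁻¹ ^ (P (m + n)) ≤
        ∑' m : ℕ, 2 * ((3 : ℝ)⁻¹ ^ (P n) * (3 : ℝ)⁻¹ ^ m) := by
      apply Summable.tsum_le_tsum _ hs hg
      intro m
      have h2 := fin2_le (b (m + n))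
      have h3 := term_le P hP n m
      have : 1 + (b (m + n) : ℝ) ≤ 2 := by linarith
      gcongr
    refine h1.trans (le_of_eq ?_)
    rw [tsum_mul_left, tsum_mul_left, geo_tail]; ring

lemma phi_split (P : ℕ → ℕ) (hP : StrictMono P) (b : ℕ → Fin 2) (n : ℕ) :
    phi P b = ∑ m ∈ range n, (1 + (b m : ℝ)) * (3 : ℝ)⁻¹ ^ (P m) +
      ∑' m, (1 + (b (m + n) : ℝ)) * (3 : ℝ)⁻¹ ^ (P (m + n)) := by
  have hs : Summable fun m => (1 + (b m : ℝ)) * (3 : ℝ)⁻¹ ^ (P m) :=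
    summ P hP (fun m => 1 + (b m : ℝ)) (fun m => by
      have := fin2_le (b m)
      rw [abs_of_nonneg (by positivity)]; linarith)
  unfold phi
  exact (Summable.sum_add_tsum_nat_add n hs).symm

/-- separation -/
lemma phi_sep (P : ℕ → ℕ) (hP : StrictMono P) (b c : ℕ → Fin 2) (n : ℕ)
    (hlt : ∀ i < n, b i = c i) (hn : b n ≠ c n) :
    (3 : ℝ)⁻¹ ^ (P n) / 2 ≤ |phi P b - phi P c| := by
  have hP' : StrictMono fun m => P (m + (n + 1)) := fun a c hac => hP (by omega)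
  have hsum : ∀ d : ℕ → Fin 2, Summable fun m => (1 + (d (m + (n + 1)) : ℝ)) * (3 : ℝ)⁻¹ ^ (P (m + (n + 1))) :=
    fun d => summ (fun m => P (m + (n + 1))) hP' (fun m => 1 + (d (m + (n + 1)) : ℝ)) (fun m => by
      have := fin2_le (d (m + (n + 1)))
      rw [abs_of_nonneg (by positivity)]; linarith)
  rw [phi_split P hP b (n + 1), phi_split P hP c (n + 1), sum_range_succ, sum_range_succ]
  have h1 : ∑ m ∈ range n, (1 + (b m : ℝ)) * (3 : ℝ)⁻¹ ^ (P m) =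
      ∑ m ∈ range n, (1 + (c m : ℝ)) * (3 : ℝ)⁻¹ ^ (P m) :=
    sum_congr rfl fun m hm => by rw [hlt m (mem_range.1 hm)]
  rw [h1]
  set Tb := ∑' m, (1 + (b (m + (n + 1)) : ℝ)) * (3 : ℝ)⁻¹ ^ (P (m + (n + 1)))
  set Tc := ∑' m, (1 + (c (m + (n + 1)) : ℝ)) * (3 : ℝ)⁻¹ ^ (P (m + (n + 1)))
  have h2 : |Tb - Tc| ≤ (3 : ℝ)⁻¹ ^ (P n) / 2 := by
    have hg : Summable fun m : ℕ => ((3 : ℝ)⁻¹ ^ (P n) * 3⁻¹) * (3 : ℝ)⁻¹ ^ m :=
      (summable_geometric_of_lt_one (by norm_num) (by norm_num)).mul_left _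
    have h3 : Tb - Tc = ∑' m, ((b (m + (n + 1)) : ℝ) - c (m + (n + 1))) * (3 : ℝ)⁻¹ ^ (P (m + (n + 1))) := by
      rw [← Summable.tsum_sub (hsum b) (hsum c)]
      congr 1; ext m; ring
    rw [h3, ← Real.norm_eq_abs]
    refine (tsum_of_norm_bounded hg.hasSum fun m => ?_).trans (le_of_eq ?_)
    · rw [norm_mul, Real.norm_eq_abs, norm_pow, norm_inv]
      have h4 : ‖(3 : ℝ)‖ = 3 := by norm_num
      rw [h4]
      have h5 : |((b (m + (n + 1)) : ℝ) - c (m + (n + 1)))| ≤ 1 := by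
        have e1 := fin2_le (b (m + (n + 1)))
        have e2 := fin2_le (c (m + (n + 1)))
        have e3 : (0 : ℝ) ≤ ((b (m + (n + 1)) : ℕ) : ℝ) := by positivity
        have e4 : (0 : ℝ) ≤ ((c (m + (n + 1)) : ℕ) : ℝ) := by positivity
        rw [abs_le]; constructor <;> linarith
      have h6 : (3 : ℝ)⁻¹ ^ (P (m + (n + 1))) ≤ (3 : ℝ)⁻¹ ^ (P n) * 3⁻¹ * (3 : ℝ)⁻¹ ^ m := by
        have := term_le P hP n (m + 1)
        rw [pow_succ (3 : ℝ)⁻¹ m] at this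
        have e5 : m + 1 + n = m + (n + 1) := by ring
        rw [e5] at this
        linarith
      calc |((b (m + (n + 1)) : ℝ) - c (m + (n + 1)))| * (3 : ℝ)⁻¹ ^ (P (m + (n + 1)))
          ≤ 1 * (3 : ℝ)⁻¹ ^ (P (m + (n + 1))) := by gcongr
        _ ≤ _ := by rw [one_mul]; exact h6
    · rw [tsum_mul_left, geo_tail]; ring
  have h7 : (3 : ℝ)⁻¹ ^ (P n) ≤ |((b n : ℝ) - c n) * (3 : ℝ)⁻¹ ^ (P n)| := by
    rw [abs_mul, abs_of_pos (show (0 : ℝ) < (3 : ℝ)⁻¹ ^ (P n) by positivity)]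
    apply le_mul_of_one_le_left (by positivity)
    have e1 := (b n).2
    have e2 := (c n).2
    have e3 : (b n : ℕ) ≠ (c n : ℕ) := fun h => hn (Fin.ext h)
    have e4 : ((b n : ℕ) = 0 ∧ (c n : ℕ) = 1) ∨ ((b n : ℕ) = 1 ∧ (c n : ℕ) = 0) := by omega
    rcases e4 with ⟨h8, h9⟩ | ⟨h8, h9⟩ <;> rw [h8, h9] <;> norm_num
  have h10 : ∀ A : ℝ, A + (1 + (b n : ℝ)) * (3 : ℝ)⁻¹ ^ (P n) + Tb - (A + (1 + (c n : ℝ)) * (3 : ℝ)⁻¹ ^ (P n) + Tc) =
      ((b n : ℝ) - c n) * (3 : ℝ)⁻¹ ^ (P n) + (Tb - Tc) := by intro A; ring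
  rw [h10]
  have h11 : |((b n : ℝ) - c n) * (3 : ℝ)⁻¹ ^ (P n)| ≤
      |((b n : ℝ) - c n) * (3 : ℝ)⁻¹ ^ (P n) + (Tb - Tc)| + |Tb - Tc| := by
    have : ((b n : ℝ) - c n) * (3 : ℝ)⁻¹ ^ (P n) =
        (((b n : ℝ) - c n) * (3 : ℝ)⁻¹ ^ (P n) + (Tb - Tc)) + -(Tb - Tc) := by ring
    calc |((b n : ℝ) - c n) * (3 : ℝ)⁻¹ ^ (P n)| =
          |(((b n : ℝ) - c n) * (3 : ℝ)⁻¹ ^ (P n) + (Tb - Tc)) + -(Tb - Tc)| := by rw [← this]
      _ ≤ _ := by
        refine (abs_add_le _ _).trans ?_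
        rw [abs_neg]
  linarith

lemma first_diff (b c : ℕ → Fin 2) (h : b ≠ c) : ∃ n, (∀ i < n, b i = c i) ∧ b n ≠ c n := by
  classical
  have hex : ∃ n, b n ≠ c n := by
    by_contra hcon
    push Not at hcon
    exact h (funext hcon)
  refine ⟨Nat.find hex, fun i hi => ?_, Nat.find_spec hex⟩
  have := Nat.find_min hex hi
  push Not at this
  exact this

lemma phi_inj (P : ℕ → ℕ) (hP : StrictMono P) : Function.Injective (phi P) := by
  intro b c hbc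
  by_contra hne
  obtain ⟨n, h1, h2⟩ := first_diff b c hne
  have h3 := phi_sep P hP b c n h1 h2
  rw [hbc, sub_self, abs_zero] at h3
  have : (0 : ℝ) < (3 : ℝ)⁻¹ ^ (P n) / 2 := by positivity
  linarith

/-- the Cantor type set has positive dimension if the places grow at most linearly -/
lemma dim_pos (P : ℕ → ℕ) (hP : StrictMono P) (C : ℕ) (hC : 1 ≤ C)
    (hPC : ∀ m, P m ≤ C * (m + 1)) : 0 < dimH (Set.range (phi P)) := by
  classical
  have hC0 : (0 : ℝ) < C := by exact_mod_cast hC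
  set r : NNReal := ⟨1 / (2 * C), by positivity⟩ with hr
  have hr0 : 0 < r := by
    rw [← NNReal.coe_pos, hr]
    change (0 : ℝ) < 1 / (2 * C)
    positivity
  have hrr : (r : ℝ) = 1 / (2 * C) := rfl
  set f : ℝ → ℝ := fun x => Real.ofDigits (Function.invFun (phi P) x) with hf
  have hfphi : ∀ b, f (phi P b) = Real.ofDigits b := by
    intro b
    simp only [hf]
    rw [Function.leftInverse_invFun (phi_inj P hP)]
  have hHol : HolderOnWith 3 r f (Set.range (phi P)) := by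
    rintro _ ⟨b, rfl⟩ _ ⟨c, rfl⟩
    rw [hfphi, hfphi]
    by_cases hbc : b = c
    · rw [hbc, edist_self]; positivity
    obtain ⟨n, h1, h2⟩ := first_diff b c hbc
    have h3 := phi_sep P hP b c n h1 h2
    have h4 := Real.abs_ofDigits_sub_ofDigits_le h1
    push_cast at h4
    have h5 : (3 : ℝ) ^ (-((C : ℝ) * (n + 1)) - 1) ≤ |phi P b - phi P c| := by
      refine le_trans ?_ h3
      have h6 : (3 : ℝ)⁻¹ ^ (C * (n + 1)) ≤ (3 : ℝ)⁻¹ ^ (P n) :=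
        pow_le_pow_of_le_one (by norm_num) (by norm_num) (hPC n)
      have h7 : (3 : ℝ) ^ (-((C : ℝ) * (n + 1)) - 1) = (3 : ℝ)⁻¹ ^ (C * (n + 1)) / 3 := by
        rw [Real.rpow_sub (by norm_num), Real.rpow_one, Real.rpow_neg (by norm_num), inv_pow,
          ← Real.rpow_natCast]
        push_cast; rfl
      rw [h7]
      have : (0 : ℝ) < (3 : ℝ)⁻¹ ^ (P n) := by positivity
      linarith
    have h8 : ((2 : ℝ) ^ n)⁻¹ ≤ 3 * |phi P b - phi P c| ^ (r : ℝ) := by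
      have h9 : ((3 : ℝ) ^ (-((C : ℝ) * (n + 1)) - 1)) ^ (r : ℝ) ≤ |phi P b - phi P c| ^ (r : ℝ) :=
        Real.rpow_le_rpow (by positivity) h5 (by rw [hrr]; positivity)
      rw [← Real.rpow_mul (by norm_num), hrr] at h9
      have h10 : (3 : ℝ) ^ (-(n : ℝ) / 2 - 1) ≤ (3 : ℝ) ^ ((-((C : ℝ) * (n + 1)) - 1) * (1 / (2 * C))) := by
        apply Real.rpow_le_rpow_of_exponent_le (by norm_num)
        have e1 : (-((C : ℝ) * (n + 1)) - 1) * (1 / (2 * C)) = -(n : ℝ) / 2 - 1 / 2 - 1 / (2 * C) := by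
          field_simp; ring
        rw [e1]
        have e2 : 1 / (2 * (C : ℝ)) ≤ 1 / 2 := by
          apply one_div_le_one_div_of_le (by norm_num)
          have : (1 : ℝ) ≤ C := by exact_mod_cast hC
          linarith
        linarith
      have h11 : ((2 : ℝ) ^ n)⁻¹ ≤ 3 * (3 : ℝ) ^ (-(n : ℝ) / 2 - 1) := by
        rw [Real.rpow_sub (by norm_num), Real.rpow_one]
        have e3 : (3 : ℝ) ^ (-(n : ℝ) / 2) = ((3 : ℝ) ^ ((n : ℝ) / 2))⁻¹ := by
          rw [← Real.rpow_neg (by norm_num)]; congr 1; ring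
        rw [e3]
        have e4 : (3 : ℝ) ^ ((n : ℝ) / 2) ≤ (2 : ℝ) ^ n := by
          have e5 : (3 : ℝ) ^ ((n : ℝ) / 2) = ((3 : ℝ) ^ ((1 : ℝ) / 2)) ^ n := by
            rw [← Real.rpow_natCast, ← Real.rpow_mul (by norm_num)]; congr 1; ring
          rw [e5]
          have e6 : (3 : ℝ) ^ ((1 : ℝ) / 2) ≤ 2 := by
            rw [← Real.sqrt_eq_rpow]
            rw [Real.sqrt_le_left (by norm_num)]; norm_num
          gcongr
        have e7 : ((2 : ℝ) ^ n)⁻¹ ≤ ((3 : ℝ) ^ ((n : ℝ) / 2))⁻¹ := by gcongr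
        linarith
      calc ((2 : ℝ) ^ n)⁻¹ ≤ 3 * (3 : ℝ) ^ (-(n : ℝ) / 2 - 1) := h11
        _ ≤ 3 * |phi P b - phi P c| ^ (r : ℝ) := by
            rw [hrr]
            have := h10.trans h9
            linarith
    rw [edist_dist, edist_dist, Real.dist_eq, Real.dist_eq, ENNReal.ofReal_rpow_of_nonneg (abs_nonneg (phi P b - phi P c)) (NNReal.coe_nonneg r)]
    have h12 : ((3 : NNReal) : ENNReal) = ENNReal.ofReal 3 := by simp
    rw [h12, ← ENNReal.ofReal_mul (by norm_num)]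
    exact ENNReal.ofReal_le_ofReal (h4.trans h8)
  have h1 := hHol.dimH_image_le hr0
  have h2 : Set.Icc (0 : ℝ) 1 ⊆ f '' Set.range (phi P) := by
    intro y hy
    obtain ⟨b, _, hb⟩ := Real.ofDigits_SurjOn (b := 2) (by norm_num) hy
    exact ⟨phi P b, ⟨b, rfl⟩, by rw [hfphi, hb]⟩
  have h3 : dimH (Set.Icc (0 : ℝ) 1) = 1 := by
    have := Real.dimH_of_nonempty_interior (s := Set.Icc (0 : ℝ) 1) (by
      rw [interior_Icc]; exact ⟨1 / 2, by norm_num, by norm_num⟩)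
    simpa using this
  have h4 := (dimH_mono h2).trans h1
  rw [h3] at h4
  by_contra hcon
  push Not at hcon
  rw [nonpos_iff_eq_zero] at hcon
  rw [hcon, ENNReal.zero_div] at h4
  exact absurd h4 (by norm_num)

end Pool.Agent.Y937.MF
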