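import Mathlib
import Pool.Agent.Y937.MF.Cantor

set_option autoImplicit false

open Finset

namespace Pool.Agent.Y937.MF

/-- ends of the blocks -/
noncomputable def EE (τ : ℝ) : ℕ → ℕ
  | 0 => 1
  | k + 1 => ⌈τ * EE τ k⌉₊ + EE τ k

/-- positions before the beginning of the next block -/
noncomputable def tt (τ : ℝ) (k : ℕ) : ℕ := ⌈τ * EE τ k⌉₊

/-- number of free places in the first `k + 1` blocks -/
noncomputable def MM (τ : ℝ) : ℕ → ℕ
  | 0 => 1
  | k + 1 => MM τ k + EE τ k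

/-- the free places -/
noncomputable def PP (τ : ℝ) (m : ℕ) : ℕ :=
  m + 1 + ∑ k ∈ range m, if MM τ k ≤ m then tt τ k - EE τ k else 0

lemma EE_pos (τ : ℝ) (k : ℕ) : 1 ≤ EE τ k := by
  induction k with
  | zero => simp [EE]
  | succ k ih => rw [EE]; omega

lemma tt_ge (τ : ℝ) (hτ : 3 < τ) (k : ℕ) : 3 * EE τ k ≤ tt τ k := by
  have h1 : τ * EE τ k ≤ tt τ k := Nat.le_ceil _
  have h2 : (0 : ℝ) ≤ EE τ k := by positivity
  have h3 : (3 : ℝ) * EE τ k ≤ tt τ k := by nlinarith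
  exact_mod_cast h3

lemma MM_strict (τ : ℝ) : StrictMono (MM τ) := by
  apply strictMono_nat_of_lt_succ
  intro k
  rw [MM]
  have := EE_pos τ k
  omega

lemma MM_gt (τ : ℝ) (k : ℕ) : k < MM τ k := by
  induction k with
  | zero => simp [MM]
  | succ k ih =>
    have := MM_strict τ (show k < k + 1 by omega)
    omega

lemma PP_strict (τ : ℝ) : StrictMono (PP τ) := by
  apply strictMono_nat_of_lt_succ
  intro m
  unfold PP
  have h1 : ∑ k ∈ range m, (if MM τ k ≤ m then tt τ k - EE τ k else 0) ≤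
      ∑ k ∈ range (m + 1), (if MM τ k ≤ m + 1 then tt τ k - EE τ k else 0) := by
    rw [sum_range_succ]
    refine le_trans (sum_le_sum fun k _ => ?_) (Nat.le_add_right _ _)
    split_ifs with h2 h3 h3
    · exact le_rfl
    · omega
    · exact Nat.zero_le _
    · exact le_rfl
  omega

lemma PP_eq (τ : ℝ) (m k : ℕ) (h1 : m < MM τ k) (h2 : ∀ j < k, MM τ j ≤ m) :
    PP τ m = m + 1 + ∑ j ∈ range k, (tt τ j - EE τ j) := by
  unfold PP
  congr 1
  rw [← sum_filter]
  congr 1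
  ext j
  rw [mem_filter, mem_range, mem_range]
  constructor
  · rintro ⟨_, h3⟩
    exact (MM_strict τ).lt_iff_lt.1 (lt_of_le_of_lt h3 h1)
  · intro h3
    have h4 := h2 j h3
    have h5 := MM_gt τ j
    exact ⟨by omega, h4⟩

lemma MM_add (τ : ℝ) (hτ : 3 < τ) (k : ℕ) :
    MM τ k + ∑ j ∈ range k, (tt τ j - EE τ j) = EE τ k := by
  induction k with
  | zero => simp [MM, EE]
  | succ k ih =>
    rw [sum_range_succ, MM, EE]
    have h1 := tt_ge τ hτ k
    have h2 : ⌈τ * EE τ k⌉₊ = tt τ k := rfl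
    rw [h2]
    omega

lemma PP_last (τ : ℝ) (hτ : 3 < τ) (k : ℕ) : PP τ (MM τ k - 1) = EE τ k := by
  have h0 := MM_gt τ k
  rw [PP_eq τ (MM τ k - 1) k (by omega) (fun j hj => by
    have := MM_strict τ hj
    omega)]
  rw [← MM_add τ hτ k]
  omega

lemma PP_first (τ : ℝ) (hτ : 3 < τ) (k : ℕ) : PP τ (MM τ k) = tt τ k + 1 := by
  rw [PP_eq τ (MM τ k) (k + 1) (MM_strict τ (by omega)) (fun j hj =>
    (MM_strict τ).monotone (by omega))]
  rw [sum_range_succ]
  have h1 := MM_add τ hτ k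
  have h2 := tt_ge τ hτ k
  omega

lemma PP_zero (τ : ℝ) : PP τ 0 = 1 := by simp [PP]

lemma PP_linear (τ : ℝ) (hτ : 3 < τ) : ∃ C : ℕ, 1 ≤ C ∧ ∀ m, PP τ m ≤ C * (m + 1) := by
  obtain ⟨A, hA⟩ : ∃ A : ℕ, τ + 2 ≤ A := ⟨⌈τ + 2⌉₊, Nat.le_ceil _⟩
  have hA1 : 1 ≤ A := by
    have : (1 : ℝ) ≤ A := by linarith
    exact_mod_cast this
  have hEE : ∀ k, EE τ (k + 1) ≤ A * EE τ k := by
    intro k
    rw [EE]
    have h1 : (⌈τ * EE τ k⌉₊ : ℝ) ≤ τ * EE τ k + 1 := (Nat.ceil_lt_add_one (by positivity)).le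
    have h2 : (1 : ℝ) ≤ EE τ k := by exact_mod_cast EE_pos τ k
    have h3 : ((⌈τ * EE τ k⌉₊ + EE τ k : ℕ) : ℝ) ≤ ((A * EE τ k : ℕ) : ℝ) := by
      push_cast
      nlinarith
    exact_mod_cast h3
  have hEM : ∀ k, EE τ k ≤ A * MM τ k := by
    intro k
    cases k with
    | zero => simp only [EE, MM]; omega
    | succ k =>
      refine (hEE k).trans ?_
      apply Nat.mul_le_mul_left
      rw [MM]; omega
  refine ⟨A * A, Nat.mul_pos hA1 hA1, fun m => ?_⟩
  classical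
  have hex : ∃ k, m < MM τ k := ⟨m, MM_gt τ m⟩
  set k := Nat.find hex with hk
  have h1 : m < MM τ k := Nat.find_spec hex
  have h2 : PP τ m ≤ EE τ k := by
    rw [← PP_last τ hτ k]
    exact (PP_strict τ).monotone (by omega)
  rcases Nat.eq_zero_or_pos k with hk0 | hk0
  · rw [hk0] at h2
    have h3 : EE τ 0 = 1 := rfl
    rw [h3] at h2
    refine h2.trans ?_
    have : 1 * 1 * 1 ≤ A * A * (m + 1) := by gcongr; omega
    simpa using this
  · obtain ⟨j, hj⟩ : ∃ j, k = j + 1 := ⟨k - 1, by omega⟩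
    have h3 : ¬ (m < MM τ j) := Nat.find_min hex (by omega)
    push Not at h3
    calc PP τ m ≤ EE τ k := h2
      _ = EE τ (j + 1) := by rw [hj]
      _ ≤ A * EE τ j := hEE j
      _ ≤ A * (A * MM τ j) := Nat.mul_le_mul_left _ (hEM j)
      _ ≤ A * (A * (m + 1)) := by gcongr; omega
      _ = A * A * (m + 1) := by ring

lemma good_phi (τ : ℝ) (hτ : 3 < τ) (b : ℕ → Fin 2) : Good τ (phi (PP τ) b) (EE τ) (tt τ) where
  E0 := rfl
  ht := fun _ => rfl
  hE := fun _ => rfl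
  happ := by
    intro k
    have hM := MM_gt τ k
    obtain ⟨n, hn⟩ : ∃ n, MM τ k = n + 1 := ⟨MM τ k - 1, by omega⟩
    have hPn : PP τ n = EE τ k := by
      have := PP_last τ hτ k
      rw [hn] at this
      simpa using this
    have hPle : ∀ m < n, PP τ m < EE τ k := fun m hm => by
      rw [← hPn]; exact PP_strict τ hm
    refine ⟨∑ m ∈ range (n + 1), (1 + ((b m : ℕ) : ℤ)) * 3 ^ (EE τ k - PP τ m), ?_, ?_⟩
    · rw [sum_range_succ, hPn]
      intro hdvd
      have h1 : (3 : ℤ) ∣ ∑ m ∈ range n, (1 + ((b m : ℕ) : ℤ)) * 3 ^ (EE τ k - PP τ m) := by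
        apply dvd_sum
        intro m hm
        apply dvd_mul_of_dvd_right
        have := hPle m (mem_range.1 hm)
        exact dvd_pow_self 3 (by omega)
      have h2 := (Int.dvd_add_right h1).1 hdvd
      rw [Nat.sub_self, pow_zero, mul_one] at h2
      have h3 := (b n).2
      omega
    · have h4 : phi (PP τ) b - ((∑ m ∈ range (n + 1), (1 + ((b m : ℕ) : ℤ)) * 3 ^ (EE τ k - PP τ m) : ℤ) : ℝ) / 3 ^ (EE τ k) =
          ∑' m, (1 + (b (m + (n + 1)) : ℝ)) * (3 : ℝ)⁻¹ ^ (PP τ (m + (n + 1))) := by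
        rw [phi_split (PP τ) (PP_strict τ) b (n + 1)]
        have h5 : ((∑ m ∈ range (n + 1), (1 + ((b m : ℕ) : ℤ)) * 3 ^ (EE τ k - PP τ m) : ℤ) : ℝ) / 3 ^ (EE τ k) =
            ∑ m ∈ range (n + 1), (1 + (b m : ℝ)) * (3 : ℝ)⁻¹ ^ (PP τ m) := by
          push_cast
          rw [sum_div]
          refine sum_congr rfl fun m hm => ?_
          have hm' : PP τ m ≤ EE τ k := by
            rcases Nat.lt_or_ge m n with h | h
            · exact (hPle m h).le
            · have : m = n := by have := mem_range.1 hm; omega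
              rw [this, hPn]
          rw [mul_div_assoc]
          congr 1
          rw [inv_pow, pow_sub₀ (3 : ℝ) (by norm_num) hm']
          field_simp
        rw [h5]; ring
      rw [h4]
      have h6 := tail_bounds (PP τ) (PP_strict τ) b (n + 1)
      have h7 : PP τ (n + 1) = tt τ k + 1 := by rw [← hn]; exact PP_first τ hτ k
      rw [h7] at h6
      refine ⟨h6.1, h6.2.trans (le_of_eq ?_)⟩
      rw [pow_succ]; ring

lemma phi_mem (τ : ℝ) (hτ : 3 < τ) (b : ℕ → Fin 2) :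
    0 ≤ phi (PP τ) b ∧ phi (PP τ) b < 1 := by
  have h0 := tail_bounds (PP τ) (PP_strict τ) b 0
  have h1 := tail_bounds (PP τ) (PP_strict τ) b 1
  have h2 := phi_split (PP τ) (PP_strict τ) b 1
  have h3 := phi_split (PP τ) (PP_strict τ) b 0
  have h4 : PP τ 1 = tt τ 0 + 1 := by
    have := PP_first τ hτ 0
    simpa [MM] using this
  have h5 : 3 ≤ tt τ 0 := by
    have := tt_ge τ hτ 0
    simpa [EE] using this
  constructor
  · rw [h3]
    simp only [range_zero, sum_empty, zero_add]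
    exact le_trans (by positivity) h0.1
  · rw [h2, sum_range_one, PP_zero, pow_one]
    have h6 := fin2_le (b 0)
    have h7 : (3 : ℝ)⁻¹ ^ (PP τ 1) ≤ (3 : ℝ)⁻¹ ^ 4 :=
      pow_le_pow_of_le_one (by norm_num) (by norm_num) (by omega)
    have h8 := h1.2
    norm_num at h7
    linarith

end Pool.Agent.Y937.MF
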