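import Mathlib

set_option autoImplicit false

open Filter Asymptotics

namespace Pool.Agent.Y937.MF

lemma tendsto_log_nat : Tendsto (fun N : ℕ => Real.log N) atTop atTop :=
  Real.tendsto_log_atTop.comp tendsto_natCast_atTop_atTop

/-- the growth exponent in both forms from an upper and a lower bound -/
lemma growth (W : ℕ → ℂ) (γ : ℝ) (hγ : 0 < γ)
    (hU : ∀ s, γ < s → W =O[atTop] fun N : ℕ => (N : ℝ) ^ s)
    (c : ℝ) (hc : 0 < c) (hL : ∃ᶠ N : ℕ in atTop, c * (N : ℝ) ^ γ ≤ ‖W N‖) :
    limsup (fun N : ℕ => Real.log ‖W N‖ / Real.log N) atTop = γ ∧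
      sInf {s : ℝ | 0 < s ∧ W =O[atTop] fun N : ℕ => (N : ℝ) ^ s} = γ := by
  constructor
  · -- limsup
    set f : ℕ → ℝ := fun N => Real.log ‖W N‖ / Real.log N with hf
    have hup : ∀ s, γ < s → ∀ᶠ N in atTop, f N ≤ s := by
      intro s hs
      set s' := (γ + s) / 2 with hs'
      have h1 : γ < s' := by rw [hs']; linarith
      have h2 : s' < s := by rw [hs']; linarith
      obtain ⟨C, hC⟩ := (hU s' h1).bound
      have h3 : ∀ᶠ N : ℕ in atTop, (|Real.log (|C| + 1)|) / (s - s') ≤ Real.log N :=
        tendsto_log_nat.eventually_ge_atTop _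
      have h4 : ∀ᶠ N : ℕ in atTop, 1 ≤ Real.log N := tendsto_log_nat.eventually_ge_atTop _
      filter_upwards [hC, h3, h4, eventually_ge_atTop 1] with N h5 h6 h7 h8
      have hN : (0 : ℝ) < N := by exact_mod_cast h8
      have hlog : 0 < Real.log N := by linarith
      rw [hf]
      simp only
      rw [div_le_iff₀ hlog]
      rcases eq_or_ne (W N) 0 with h0 | h0
      · rw [h0, norm_zero, Real.log_zero]
        have : 0 < s := by linarith
        positivity
      · have h9 : ‖W N‖ ≤ (|C| + 1) * (N : ℝ) ^ s' := by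
          refine h5.trans ?_
          rw [Real.norm_of_nonneg (by positivity)]
          have : C ≤ |C| + 1 := by linarith [le_abs_self C]
          gcongr
        have h10 := Real.log_le_log (norm_pos_iff.2 h0) h9
        rw [Real.log_mul (by positivity) (by positivity), Real.log_rpow hN] at h10
        rw [div_le_iff₀ (by linarith)] at h6
        have h11 := le_abs_self (Real.log (|C| + 1))
        nlinarith
    have hlow : ∀ s, s < γ → ∃ᶠ N in atTop, s ≤ f N := by
      intro s hs
      have h3 : ∀ᶠ N : ℕ in atTop, |Real.log c| / (γ - s) ≤ Real.log N :=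
        tendsto_log_nat.eventually_ge_atTop _
      have h4 : ∀ᶠ N : ℕ in atTop, 1 ≤ Real.log N := tendsto_log_nat.eventually_ge_atTop _
      refine (hL.and_eventually (h3.and (h4.and (eventually_ge_atTop 1)))).mono ?_
      rintro N ⟨h5, h6, h7, h8⟩
      have hN : (0 : ℝ) < N := by exact_mod_cast h8
      have hlog : 0 < Real.log N := by linarith
      rw [hf]
      simp only
      rw [le_div_iff₀ hlog]
      have h10 := Real.log_le_log (by positivity) h5
      rw [Real.log_mul (by positivity) (by positivity), Real.log_rpow hN] at h10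
      rw [div_le_iff₀ (by linarith)] at h6
      have h11 := neg_abs_le (Real.log c)
      nlinarith
    have hcob : IsCoboundedUnder (· ≤ ·) atTop f :=
      IsCoboundedUnder.of_frequently_ge (hlow (γ - 1) (by linarith))
    have hbdd : IsBoundedUnder (· ≤ ·) atTop f := ⟨γ + 1, by
      rw [eventually_map]; exact hup (γ + 1) (by linarith)⟩
    apply le_antisymm
    · apply le_of_forall_gt_imp_ge_of_dense
      intro s hs
      exact limsup_le_of_le hcob (hup s hs)
    · apply le_of_forall_lt_imp_le_of_dense
      intro s hs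
      exact le_limsup_of_frequently_le (hlow s hs) hbdd
  · apply le_antisymm
    · apply le_of_forall_gt_imp_ge_of_dense
      intro s hs
      exact csInf_le ⟨0, fun u hu => hu.1.le⟩ ⟨by linarith, hU s hs⟩
    · have hne : Set.Nonempty {s : ℝ | 0 < s ∧ W =O[atTop] fun N : ℕ => (N : ℝ) ^ s} :=
        ⟨γ + 1, by linarith, hU (γ + 1) (by linarith)⟩
      refine le_csInf hne ?_
      rintro s ⟨_, hs⟩
      by_contra hcon
      push Not at hcon
      obtain ⟨C, hC⟩ := hs.bound
      have h1 : ∀ᶠ N : ℕ in atTop, (|C| + 1) / c ≤ (N : ℝ) ^ (γ - s) :=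
        ((tendsto_rpow_atTop (by linarith : 0 < γ - s)).comp
          tendsto_natCast_atTop_atTop).eventually_ge_atTop _
      obtain ⟨N, h5, h6, h7, h8⟩ := (hL.and_eventually (hC.and (h1.and (eventually_ge_atTop 1)))).exists
      have hN : (0 : ℝ) < N := by exact_mod_cast h8
      rw [Real.norm_of_nonneg (by positivity)] at h6
      rw [Real.rpow_sub hN, div_le_div_iff₀ hc (by positivity)] at h7
      have h9 : (0 : ℝ) < (N : ℝ) ^ s := by positivity
      have h10 := le_abs_self C
      nlinarith

end Pool.Agent.Y937.MF
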