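import Mathlib
import Pool.Agent.Y937.MF.Upper

set_option autoImplicit false

open Finset
open Pool.Agent.Helper170.Weyl (e e_add norm_e conj_e e_int e_nat_mul geom_bound vdc)

namespace Pool.Agent.Y937.MF

lemma e_zero : e 0 = 1 := by
  have := e_int 0
  simpa using this

lemma shift_sum (g : ℕ → ℂ) (P : ℕ) (hg : ∀ n, g (n + P) = g n) (k : ℕ) :
    ∑ h ∈ range P, g (h + k) = ∑ h ∈ range P, g h := by
  induction k with
  | zero => simp
  | succ k ih =>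
    rw [← ih]
    have h1 : ∑ h ∈ range P, g (h + (k + 1)) = ∑ h ∈ range (P + 1), g (h + k) - g k := by
      rw [sum_range_succ']
      simp only [zero_add, add_sub_cancel_right]
      refine sum_congr rfl fun h _ => ?_
      congr 1; ring
    rw [h1, sum_range_succ, add_comm P k, hg]
    ring

lemma e_ne_one (m : ℤ) (q : ℕ) (hq : 1 ≤ q) (hm : ¬ (q : ℤ) ∣ m) : e ((m : ℝ) / q) ≠ 1 := by
  have hq0 : (0 : ℝ) < q := by exact_mod_cast hq
  intro h
  unfold e at h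
  rw [Complex.exp_eq_one_iff] at h
  obtain ⟨n, hn⟩ := h
  have h3 : (((2 * Real.pi * ((m : ℝ) / q) : ℝ) : ℂ)) = ((n * (2 * Real.pi) : ℝ) : ℂ) := by
    have := hn
    push_cast at this ⊢
    have hI : Complex.I ≠ 0 := Complex.I_ne_zero
    apply mul_right_cancel₀ hI
    linear_combination this
  have h4 : (2 * Real.pi * ((m : ℝ) / q) : ℝ) = (n * (2 * Real.pi) : ℝ) := by exact_mod_cast h3
  have h5 : ((m : ℝ) / q) = n := by
    have hpi := Real.pi_pos
    have : (2 * Real.pi) * ((m : ℝ) / q) = (2 * Real.pi) * n := by rw [h4]; ring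
    exact mul_left_cancel₀ (by positivity) this
  apply hm
  rw [div_eq_iff hq0.ne'] at h5
  refine ⟨n, ?_⟩
  have : (m : ℝ) = ((q * n : ℤ) : ℝ) := by push_cast; linarith
  exact_mod_cast this

lemma geom_zero (m : ℤ) (q : ℕ) (hq : 1 ≤ q) (hm : ¬ (q : ℤ) ∣ m) :
    ∑ k ∈ range q, e ((k : ℝ) * ((m : ℝ) / q)) = 0 := by
  have hq0 : (0 : ℝ) < q := by exact_mod_cast hq
  simp only [e_nat_mul]
  rw [geom_sum_eq (e_ne_one m q hq hm), ← e_nat_mul]
  have : (q : ℝ) * ((m : ℝ) / q) = m := by field_simp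
  rw [this, e_int, sub_self, zero_div]

/-- modulus of the quadratic Gauss sum with odd denominator -/
lemma gauss_norm (a : ℤ) (q : ℕ) (hq : 1 ≤ q) (hodd : IsCoprime (2 : ℤ) q) (ha : IsCoprime a (q : ℤ)) :
    ‖∑ n ∈ range q, e ((a : ℝ) / q * (n : ℝ) ^ 2)‖ ^ 2 = q := by
  have hq0 : (0 : ℝ) < q := by exact_mod_cast hq
  set g : ℕ → ℂ := fun n => e ((a : ℝ) / q * (n : ℝ) ^ 2) with hgdef
  have hper : ∀ n, g (n + q) = g n := by
    intro n
    simp only [hgdef]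
    have : (a : ℝ) / q * ((n + q : ℕ) : ℝ) ^ 2 = (a : ℝ) / q * (n : ℝ) ^ 2 + ((a * (2 * n + q) : ℤ) : ℝ) := by
      push_cast
      field_simp
      ring
    rw [this, e_add_int]
  have h1 : ((∑ n ∈ range q, g n) * (starRingEnd ℂ) (∑ n ∈ range q, g n)) = q := by
    rw [map_sum, mul_sum]
    have h2 : ∀ k ∈ range q, (∑ n ∈ range q, g n) * (starRingEnd ℂ) (g k) =
        ∑ d ∈ range q, e ((a : ℝ) / q * (d : ℝ) ^ 2) * e ((k : ℝ) * (((2 * a * d : ℤ) : ℝ) / q)) := by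
      intro k _
      rw [← shift_sum g q hper k, sum_mul]
      refine sum_congr rfl fun d _ => ?_
      simp only [hgdef]
      rw [conj_e, ← e_add, ← e_add]
      congr 1
      push_cast
      field_simp
      ring
    rw [sum_congr rfl h2, sum_comm]
    simp only [← mul_sum]
    rw [sum_eq_single 0]
    · simp [e_zero]
    · intro d hd hd0
      have hdq := mem_range.1 hd
      rw [geom_zero (2 * a * d) q hq, mul_zero]
      intro hdvd
      have h3 : (q : ℤ) ∣ (d : ℤ) := by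
        have h4 : IsCoprime (q : ℤ) (2 * a) := (hodd.mul_left ha).symm
        exact h4.dvd_of_dvd_mul_left hdvd
      have h5 := Int.le_of_dvd (by omega) h3
      omega
    · intro h; exact absurd (mem_range.mpr (by omega)) h
  rw [Complex.mul_conj] at h1
  have h3 : Complex.normSq (∑ n ∈ range q, g n) = q := by exact_mod_cast h1
  rw [← Complex.normSq_eq_norm_sq]
  exact h3

lemma e_lip (u v : ℝ) : ‖e u - e v‖ ≤ 2 * Real.pi * |u - v| := by
  have h1 : e u - e v = e v * (e (u - v) - 1) := by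
    rw [mul_sub, ← e_add, mul_one]; congr 2; ring
  rw [h1, norm_mul, norm_e, one_mul, Pool.Agent.Helper170.Weyl.norm_e_sub_one]
  have h2 : |Real.sin (Real.pi * (u - v))| ≤ |Real.pi * (u - v)| := Real.abs_sin_le_abs
  rw [abs_mul, abs_of_pos Real.pi_pos] at h2
  linarith

/-- one block -/
lemma one_block (p : ℤ) (q : ℕ) (hq : 1 ≤ q) (β : ℝ) (hβ : 0 ≤ β) (i : ℕ) (N : ℝ)
    (hN : ((i : ℝ) + 1) * q ≤ N) :
    ‖∑ b ∈ range q, e (((p : ℝ) / q + β) * ((i * q + b : ℕ) : ℝ) ^ 2) -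
      ∑ b ∈ range q, e ((p : ℝ) / q * (b : ℝ) ^ 2)‖ ≤
      4 * Real.pi * β * N * q * q + 2 * Real.pi * β * N ^ 2 *
        ‖∑ b ∈ range q, e ((p : ℝ) / q * (b : ℝ) ^ 2)‖ := by
  have hq0 : (0 : ℝ) < q := by exact_mod_cast hq
  have hpi := Real.pi_pos
  set G := ∑ b ∈ range q, e ((p : ℝ) / q * (b : ℝ) ^ 2) with hG
  have h1 : ∑ b ∈ range q, e (((p : ℝ) / q + β) * ((i * q + b : ℕ) : ℝ) ^ 2) - G =
      ∑ b ∈ range q, e ((p : ℝ) / q * (b : ℝ) ^ 2) *
        (e (β * ((i * q + b : ℕ) : ℝ) ^ 2) - e (β * (i * q : ℝ) ^ 2)) +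
      (e (β * (i * q : ℝ) ^ 2) - e 0) * G := by
    have h2 : ∀ b ∈ range q, e ((p : ℝ) / q * (b : ℝ) ^ 2) *
        (e (β * ((i * q + b : ℕ) : ℝ) ^ 2) - e (β * (i * q : ℝ) ^ 2)) =
        e (((p : ℝ) / q + β) * ((i * q + b : ℕ) : ℝ) ^ 2) -
          e (β * (i * q : ℝ) ^ 2) * e ((p : ℝ) / q * (b : ℝ) ^ 2) := by
      intro b _
      have h3 : ((p : ℝ) / q + β) * ((i * q + b : ℕ) : ℝ) ^ 2 =
          ((p : ℝ) / q * (b : ℝ) ^ 2 + β * ((i * q + b : ℕ) : ℝ) ^ 2) +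
            ((p * (i ^ 2 * q + 2 * i * b) : ℤ) : ℝ) := by
        push_cast
        field_simp
        ring
      rw [h3, e_add_int, e_add]
      ring
    rw [sum_congr rfl h2, sum_sub_distrib, ← mul_sum, ← hG, e_zero]
    ring
  rw [h1]
  refine (norm_add_le _ _).trans (add_le_add ?_ ?_)
  · refine (norm_sum_le _ _).trans ?_
    have h3 : ∀ b ∈ range q, ‖e ((p : ℝ) / q * (b : ℝ) ^ 2) *
        (e (β * ((i * q + b : ℕ) : ℝ) ^ 2) - e (β * (i * q : ℝ) ^ 2))‖ ≤ 4 * Real.pi * β * N * q := by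
      intro b hb
      have hbq : (b : ℝ) ≤ q := by exact_mod_cast (mem_range.1 hb).le
      have hb0 : (0 : ℝ) ≤ b := by positivity
      have hi0 : (0 : ℝ) ≤ i := by positivity
      rw [norm_mul, norm_e, one_mul]
      refine (e_lip _ _).trans ?_
      have h4 : β * ((i * q + b : ℕ) : ℝ) ^ 2 - β * (i * q : ℝ) ^ 2 = β * (b * (2 * (i * q) + b)) := by
        push_cast; ring
      rw [h4, abs_of_nonneg (by positivity)]
      have h5 : (b : ℝ) * (2 * (i * q) + b) ≤ q * (2 * N) := by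
        apply mul_le_mul hbq _ (by positivity) (by positivity)
        nlinarith
      calc 2 * Real.pi * (β * (b * (2 * (i * q) + b))) ≤ 2 * Real.pi * (β * (q * (2 * N))) := by gcongr
        _ = 4 * Real.pi * β * N * q := by ring
    refine (sum_le_sum h3).trans ?_
    rw [sum_const, card_range, nsmul_eq_mul]
    apply le_of_eq; ring
  · rw [norm_mul]
    gcongr
    refine (e_lip _ _).trans ?_
    rw [sub_zero, abs_of_nonneg (by positivity)]
    have hi0 : (0 : ℝ) ≤ i := by positivity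
    have h6 : (i : ℝ) * q ≤ N := by nlinarith
    calc 2 * Real.pi * (β * (i * q) ^ 2) ≤ 2 * Real.pi * (β * N ^ 2) := by gcongr
      _ = 2 * Real.pi * β * N ^ 2 := by ring

lemma blocks (p : ℤ) (q : ℕ) (hq : 1 ≤ q) (hodd : IsCoprime (2 : ℤ) q) (ha : IsCoprime p (q : ℤ))
    (β : ℝ) (hβ : 0 ≤ β) (K : ℕ)
    (hN : β * ((K : ℝ) * q) ^ 2 ≤ 1 / 81) :
    K * Real.sqrt q / 2 - q / 2 ≤ ‖S ((p : ℝ) / q + β) (K * q)‖ := by
  have hq0 : (0 : ℝ) < q := by exact_mod_cast hq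
  have hpi := Real.pi_pos
  have hpi2 := Real.pi_lt_d2
  set G := ∑ b ∈ range q, e ((p : ℝ) / q * (b : ℝ) ^ 2) with hG
  have hGn : ‖G‖ = Real.sqrt q := by
    rw [← gauss_norm p q hq hodd ha, Real.sqrt_sq (norm_nonneg _)]
  set N : ℝ := (K : ℝ) * q with hNdef
  have h1 : S ((p : ℝ) / q + β) (K * q) =
      ∑ i ∈ range K, ∑ b ∈ range q, e (((p : ℝ) / q + β) * ((i * q + b : ℕ) : ℝ) ^ 2) := by
    unfold S
    clear hN hNdef N
    induction K with
    | zero => simp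
    | succ K ih => rw [Nat.succ_mul, sum_range_add, ih, sum_range_succ]
  have h2 : ‖S ((p : ℝ) / q + β) (K * q) - K * G‖ ≤
      K * (4 * Real.pi * β * N * q * q + 2 * Real.pi * β * N ^ 2 * ‖G‖) := by
    have h3 : (K : ℂ) * G = ∑ i ∈ range K, G := by rw [sum_const, card_range, nsmul_eq_mul]
    rw [h1, h3, ← sum_sub_distrib]
    refine (norm_sum_le _ _).trans ?_
    have h4 : ∀ i ∈ range K, ‖∑ b ∈ range q, e (((p : ℝ) / q + β) * ((i * q + b : ℕ) : ℝ) ^ 2) - G‖ ≤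
        4 * Real.pi * β * N * q * q + 2 * Real.pi * β * N ^ 2 * ‖G‖ := by
      intro i hi
      apply one_block p q hq β hβ i N
      have : (i : ℝ) + 1 ≤ K := by exact_mod_cast mem_range.1 hi
      rw [hNdef]; gcongr
    refine (sum_le_sum h4).trans ?_
    rw [sum_const, card_range, nsmul_eq_mul]
  have h5 : (K : ℝ) * (4 * Real.pi * β * N * q * q + 2 * Real.pi * β * N ^ 2 * ‖G‖) =
      4 * Real.pi * (β * N ^ 2) * q + 2 * Real.pi * (β * N ^ 2) * (K * ‖G‖) := by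
    rw [hNdef]; ring
  have h6 : 4 * Real.pi * (β * N ^ 2) * q + 2 * Real.pi * (β * N ^ 2) * (K * ‖G‖) ≤
      1 / 2 * q + 1 / 2 * (K * ‖G‖) := by
    have h7 : 4 * Real.pi * (β * N ^ 2) ≤ 1 / 2 := by
      have : 4 * Real.pi * (β * N ^ 2) ≤ 4 * Real.pi * (1 / 81) := by gcongr
      linarith
    have h8 : 2 * Real.pi * (β * N ^ 2) ≤ 1 / 2 := by
      have h9 : 0 ≤ 2 * Real.pi * (β * N ^ 2) := by positivity
      linarith
    gcongr
  have h10 : ‖(K : ℂ) * G‖ - ‖S ((p : ℝ) / q + β) (K * q)‖ ≤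
      ‖S ((p : ℝ) / q + β) (K * q) - K * G‖ := by
    rw [norm_sub_rev]
    exact norm_sub_norm_le _ _
  rw [norm_mul, Complex.norm_natCast, hGn] at h10
  rw [hGn] at h2 h5 h6
  linarith

namespace Good

variable {τ x : ℝ} {E t : ℕ → ℕ}

/-- lower bound along a subsequence -/
lemma lower (h : Good τ x E t) (hτ : 3 < τ) (M : ℕ) :
    ∃ N : ℕ, M ≤ N ∧ (N : ℝ) ^ (1 - 1 / τ) / 12 ≤ ‖S x N‖ := by
  have hτ0 : 0 < τ := by linarith
  -- choose k large
  obtain ⟨k, hkM, hk7⟩ : ∃ k : ℕ, M ≤ k ∧ 7 ≤ (τ - 3) * (k : ℝ) := by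
    refine ⟨max M ⌈7 / (τ - 3)⌉₊, le_max_left _ _, ?_⟩
    have h1 : (7 / (τ - 3)) ≤ ((max M ⌈7 / (τ - 3)⌉₊ : ℕ) : ℝ) :=
      (Nat.le_ceil _).trans (by exact_mod_cast le_max_right _ _)
    rw [div_le_iff₀ (by linarith)] at h1
    linarith
  have hEk : k < E k := h.E_gt hτ k
  have hEk' : (k : ℝ) ≤ E k := by exact_mod_cast hEk.le
  have hE0 : (0 : ℝ) ≤ E k := by positivity
  have hE7 : 7 ≤ (τ - 3) * (E k : ℝ) := hk7.trans (by gcongr)
  obtain ⟨p, hp3, hp1, hp2⟩ := h.happ k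
  have hge := h.t_ge k
  -- j
  set j : ℕ := t k / 2 - 2 with hj
  have ht7 : (t k : ℝ) ≥ 3 * E k + 7 := by nlinarith
  have ht7' : 3 * E k + 7 ≤ t k := by exact_mod_cast ht7
  have hj1 : 2 * j + 4 ≤ t k := by omega
  have hj2 : t k ≤ 2 * j + 5 := by omega
  have hj3 : 3 * E k + 2 ≤ 2 * j := by omega
  have hj4 : E k ≤ j := by omega
  set K : ℕ := 3 ^ (j - E k) with hK
  have hKq : K * 3 ^ (E k) = 3 ^ j := by
    rw [hK, ← pow_add]; congr 1; omega
  refine ⟨K * 3 ^ (E k), ?_, ?_⟩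
  · rw [hKq]
    have : j < 3 ^ j := Nat.lt_pow_self (by norm_num)
    omega
  set q : ℕ := 3 ^ (E k) with hq
  have hq1 : 1 ≤ q := Nat.one_le_pow _ _ (by norm_num)
  have hqr : ((q : ℕ) : ℝ) = 3 ^ (E k) := by rw [hq]; push_cast; rfl
  set β : ℝ := x - p / 3 ^ (E k) with hβdef
  have hβ : 0 ≤ β := le_trans (by positivity) hp1
  have hx : x = (p : ℝ) / q + β := by rw [hβdef, hqr]; ring
  have hodd : IsCoprime (2 : ℤ) (q : ℤ) := by
    rw [hq]; push_cast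
    apply IsCoprime.pow_right
    norm_num
  have hpc : IsCoprime p (q : ℤ) := by
    rw [hq]; push_cast
    apply IsCoprime.pow_right
    exact ((Prime.coprime_iff_not_dvd Int.prime_three).2 hp3).symm
  have hKqr : (K : ℝ) * q = 3 ^ j := by exact_mod_cast hKq
  have hb := blocks p q hq1 hodd hpc β hβ K (by
    rw [hKqr]
    calc β * ((3 : ℝ) ^ j) ^ 2 ≤ (3 : ℝ)⁻¹ ^ (t k) * ((3 : ℝ) ^ j) ^ 2 := by gcongr
      _ ≤ (3 : ℝ)⁻¹ ^ (2 * j + 4) * ((3 : ℝ) ^ j) ^ 2 := by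
          have hpw : (3 : ℝ)⁻¹ ^ (t k) ≤ (3 : ℝ)⁻¹ ^ (2 * j + 4) :=
            pow_le_pow_of_le_one (by norm_num) (by norm_num) hj1
          exact mul_le_mul_of_nonneg_right hpw (by positivity)
      _ = 1 / 81 := by
          rw [pow_add, inv_pow, ← pow_mul, mul_comm j 2]
          have : (3 : ℝ) ^ (2 * j) ≠ 0 := by positivity
          field_simp
          norm_num)
  rw [← hx] at hb
  refine le_trans ?_ hb
  have hN : ((K * q : ℕ) : ℝ) = (3 : ℝ) ^ (j : ℝ) := by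
    rw [Real.rpow_natCast]; push_cast; exact hKqr
  rw [hN, ← Real.rpow_mul (by norm_num)]
  have hK' : (K : ℝ) = (3 : ℝ) ^ ((j : ℝ) - E k) := by
    rw [Real.rpow_sub (by norm_num), Real.rpow_natCast, Real.rpow_natCast, eq_div_iff (by positivity),
      ← hqr]
    exact hKqr
  have hsq : Real.sqrt q = (3 : ℝ) ^ ((E k : ℝ) / 2) := by
    rw [hqr, Real.sqrt_eq_rpow, ← Real.rpow_natCast, ← Real.rpow_mul (by norm_num)]
    congr 1; ring
  have hqr' : (q : ℝ) = (3 : ℝ) ^ (E k : ℝ) := by rw [hqr, Real.rpow_natCast]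
  have hj3r : (3 : ℝ) * E k + 2 ≤ 2 * j := by exact_mod_cast hj3
  have hj2r : (t k : ℝ) ≤ 2 * j + 5 := by exact_mod_cast hj2
  have hmain : (K : ℝ) * Real.sqrt q = (3 : ℝ) ^ ((j : ℝ) - E k / 2) := by
    rw [hK', hsq, ← Real.rpow_add (by norm_num)]; congr 1; ring
  have hq2 : 2 * (q : ℝ) ≤ K * Real.sqrt q := by
    rw [hmain, hqr']
    calc 2 * (3 : ℝ) ^ (E k : ℝ) ≤ 3 * (3 : ℝ) ^ (E k : ℝ) := by gcongr; norm_num
      _ = (3 : ℝ) ^ ((E k : ℝ) + 1) := by rw [Real.rpow_add (by norm_num), Real.rpow_one]; ring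
      _ ≤ (3 : ℝ) ^ ((j : ℝ) - E k / 2) := by
          apply Real.rpow_le_rpow_of_exponent_le (by norm_num); linarith
  have hfin : (3 : ℝ) ^ ((j : ℝ) * (1 - 1 / τ)) / 3 ≤ K * Real.sqrt q := by
    rw [hmain]
    have : (3 : ℝ) ^ ((j : ℝ) * (1 - 1 / τ)) / 3 = (3 : ℝ) ^ ((j : ℝ) * (1 - 1 / τ) - 1) := by
      rw [Real.rpow_sub (by norm_num), Real.rpow_one]
    rw [this]
    apply Real.rpow_le_rpow_of_exponent_le (by norm_num)
    have h8 : (E k : ℝ) / 2 - 1 ≤ j / τ := by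
      rw [le_div_iff₀ hτ0]
      nlinarith
    have h9 : (j : ℝ) * (1 - 1 / τ) = j - j / τ := by ring
    rw [h9]; linarith
  linarith

end Good

end Pool.Agent.Y937.MF
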