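import Mathlib
import Pool.Agent.Y937.MF.Lower
import Pool.Agent.Y937.MF.Build
import Pool.Agent.Y937.MF.Growth

set_option autoImplicit false

open Filter Asymptotics
open Pool.Agent.Helper170.Weyl (e norm_e)

namespace Pool.Agent.Y937.MF

/-- the quadratic Weyl sum over `1 ≤ n ≤ N` -/
noncomputable def W (x : ℝ) (N : ℕ) : ℂ := ∑ n ∈ Finset.Icc 1 N, e (x * (n : ℝ) ^ 2)

lemma S_eq_W (x : ℝ) (N : ℕ) : S x (N + 1) = W x N + 1 := by
  induction N with
  | zero => simp [S, W, e_zero]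
  | succ N ih =>
    have h1 : S x (N + 1 + 1) = S x (N + 1) + e (x * ((N + 1 : ℕ) : ℝ) ^ 2) := by
      unfold S; rw [Finset.sum_range_succ]
    have h2 : W x (N + 1) = W x N + e (x * ((N + 1 : ℕ) : ℝ) ^ 2) := by
      unfold W; rw [Finset.sum_Icc_succ_top (by omega)]
    rw [h1, h2, ih]; ring

lemma W_eq (x : ℝ) (N : ℕ) : W x N = S x N + (e (x * (N : ℝ) ^ 2) - 1) := by
  have h1 := S_eq_W x N
  have h2 : S x (N + 1) = S x N + e (x * (N : ℝ) ^ 2) := by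
    unfold S; rw [Finset.sum_range_succ]
  rw [h2] at h1
  linear_combination -h1

lemma norm_small (x : ℝ) (N : ℕ) : ‖e (x * (N : ℝ) ^ 2) - 1‖ ≤ 2 := by
  refine (norm_sub_le _ _).trans ?_
  rw [norm_e, norm_one]; norm_num

lemma W_le (x : ℝ) (N : ℕ) : ‖W x N‖ ≤ ‖S x N‖ + 2 := by
  rw [W_eq]
  exact (norm_add_le _ _).trans (by linarith [norm_small x N])

lemma S_le (x : ℝ) (N : ℕ) : ‖S x N‖ ≤ ‖W x N‖ + 2 := by
  have h : S x N = W x N - (e (x * (N : ℝ) ^ 2) - 1) := by rw [W_eq]; ring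
  rw [h]
  exact (norm_sub_le _ _).trans (by linarith [norm_small x N])

/-- both forms of the growth exponent for the constructed points -/
lemma growth_phi (τ : ℝ) (hτ : 3 < τ) (b : ℕ → Fin 2) :
    limsup (fun N : ℕ => Real.log ‖W (phi (PP τ) b) N‖ / Real.log N) atTop = 1 - 1 / τ ∧
      sInf {s : ℝ | 0 < s ∧ W (phi (PP τ) b) =O[atTop] fun N : ℕ => (N : ℝ) ^ s} = 1 - 1 / τ := by
  have hτ0 : 0 < τ := by linarith
  have hG := good_phi τ hτ b
  set x := phi (PP τ) b with hx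
  have hγ : 0 < 1 - 1 / τ := by
    have : 1 / τ < 1 := by rw [div_lt_one hτ0]; linarith
    linarith
  obtain ⟨c0, hc0, hmeas⟩ := hG.measure hτ
  obtain ⟨C, hC0, hC⟩ := upper τ x c0 (by linarith) hc0 hmeas
  apply growth (W x) (1 - 1 / τ) hγ
  · intro s hs
    set δ : ℝ := 2 * s - (2 - 2 / τ) with hδ
    have hδ0 : 0 < δ := by
      rw [hδ]
      have : 2 / τ = 2 * (1 / τ) := by ring
      rw [this]; linarith
    have hs0 : 0 < s := by linarith
    apply IsBigO.of_bound (Real.sqrt (C * (1 + 1 / δ)) + 2)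
    filter_upwards [eventually_ge_atTop 1] with N hN
    have hN1 : (1 : ℝ) ≤ N := by exact_mod_cast hN
    have hN0 : (0 : ℝ) < N := by linarith
    have h1 := hC N hN
    have h2 : 1 + Real.log N ≤ (1 + 1 / δ) * (N : ℝ) ^ δ := by
      have h3 := Real.log_le_rpow_div hN0.le hδ0
      have h4 : (1 : ℝ) ≤ (N : ℝ) ^ δ := Real.one_le_rpow hN1 hδ0.le
      have h5 : (1 + 1 / δ) * (N : ℝ) ^ δ = (N : ℝ) ^ δ + (N : ℝ) ^ δ / δ := by ring
      rw [h5]; linarith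
    have h6 : ‖S x N‖ ^ 2 ≤ (C * (1 + 1 / δ)) * ((N : ℝ) ^ s) ^ 2 := by
      refine h1.trans ?_
      have h7 : ((N : ℝ) ^ s) ^ 2 = (N : ℝ) ^ (2 - 2 / τ) * (N : ℝ) ^ δ := by
        rw [← Real.rpow_add hN0, ← Real.rpow_natCast, ← Real.rpow_mul hN0.le]
        congr 1; rw [hδ]; push_cast; ring
      rw [h7]
      calc C * ((N : ℝ) ^ (2 - 2 / τ) * (1 + Real.log N))
          ≤ C * ((N : ℝ) ^ (2 - 2 / τ) * ((1 + 1 / δ) * (N : ℝ) ^ δ)) := by gcongr
        _ = _ := by ring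
    have h8 : ‖S x N‖ ≤ Real.sqrt (C * (1 + 1 / δ)) * (N : ℝ) ^ s := by
      have h9 : ‖S x N‖ = Real.sqrt (‖S x N‖ ^ 2) := (Real.sqrt_sq (norm_nonneg _)).symm
      rw [h9]
      refine (Real.sqrt_le_sqrt h6).trans (le_of_eq ?_)
      rw [Real.sqrt_mul (by positivity), Real.sqrt_sq (by positivity)]
    rw [Real.norm_of_nonneg (show (0 : ℝ) ≤ (N : ℝ) ^ s by positivity)]
    have h10 : (1 : ℝ) ≤ (N : ℝ) ^ s := Real.one_le_rpow hN1 hs0.le
    have h11 := W_le x N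
    rw [add_mul]
    linarith
  · exact (show (0 : ℝ) < 1 / 24 by norm_num)
  · have hev : ∀ᶠ N : ℕ in atTop, (48 : ℝ) ≤ (N : ℝ) ^ (1 - 1 / τ) :=
      ((tendsto_rpow_atTop hγ).comp tendsto_natCast_atTop_atTop).eventually_ge_atTop _
    obtain ⟨N0, hN0⟩ := eventually_atTop.1 hev
    rw [frequently_atTop]
    intro M
    obtain ⟨N, hNM, hN⟩ := hG.lower hτ (max M N0)
    refine ⟨N, (le_max_left _ _).trans hNM, ?_⟩
    have h1 := hN0 N ((le_max_right _ _).trans hNM)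
    have h2 := S_le x N
    linarith

end Pool.Agent.Y937.MF
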