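import Mathlib
import Pool.Agent.Y937.MF.Final

set_option autoImplicit false

open Filter Asymptotics
open Pool.Agent.Helper170.Weyl (e norm_e)

namespace Pool.Agent.Y937.MF

/-- the point `(0, x, 0, …, 0)` -/
noncomputable def emb (d : ℕ) (x : ℝ) : Fin d → ℝ := fun j => if (j : ℕ) = 1 then x else 0

lemma emb_sum (d : ℕ) (hd : 2 ≤ d) (x : ℝ) (n : ℕ) :
    ∑ j : Fin d, emb d x j * (n : ℝ) ^ ((j : ℕ) + 1) = x * (n : ℝ) ^ 2 := by
  rw [Finset.sum_eq_single (⟨1, by omega⟩ : Fin d)]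
  · simp [emb]
  · intro j _ hj
    have : (j : ℕ) ≠ 1 := fun h => hj (Fin.ext h)
    simp [emb, this]
  · intro h; exact absurd (Finset.mem_univ _) h

lemma emb_W (d : ℕ) (hd : 2 ≤ d) (x : ℝ) (N : ℕ) :
    ∑ n ∈ Finset.Icc 1 N, Complex.exp (2 * Real.pi * Complex.I *
      ((∑ j : Fin d, emb d x j * (n : ℝ) ^ ((j : ℕ) + 1) : ℝ) : ℂ)) = W x N := by
  unfold W e
  refine Finset.sum_congr rfl fun n _ => ?_
  rw [emb_sum d hd]

lemma dimH_emb (d : ℕ) (hd : 2 ≤ d) (A : Set ℝ) : dimH A ≤ dimH (emb d '' A) := by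
  have h1 : LipschitzWith 1 (fun y : Fin d → ℝ => y ⟨1, by omega⟩) := LipschitzWith.eval _
  have h2 : A = (fun y : Fin d → ℝ => y ⟨1, by omega⟩) '' (emb d '' A) := by
    rw [Set.image_image]
    simp [emb]
  conv_lhs => rw [h2]
  exact h1.dimH_image_le _

end Pool.Agent.Y937.MF
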